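import Pool.Agent.N455.AV.Psi
set_option autoImplicit false
set_option linter.unusedSectionVars false

/-! The preperiodic points of bounded degree of the generic member specialise, with all closed
relations (helper455). -/

namespace Pool.Agent.N455.AV
open Pool.Agent.Y706
open Pool.Agent.N455

open MvPolynomial Pool.Agent.H936R2 Pool.Agent.H927R2.RD H294UB Pool.Agent.W275.UB
  Pool.Agent.W193.UB Pool.Agent.W554.UB NumberField LinearAlgebra.Projectivization Filter

/-- the polynomial `P` vanishes at the points -/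
def Van {K : Type} [Field K] {a n : ℕ} (P : MvPolynomial (Fin a × Fin n) K)
    (p : Fin a → ℙ (AlgebraicClosure K) (Fin n → AlgebraicClosure K)) : Prop :=
  aeval (fun q : Fin a × Fin n => (p q.1).rep q.2) P = 0

lemma mk_rep_smul {L : Type} [Field L] {n : ℕ} {x : Fin n → L} (hx : x ≠ 0) :
    ∃ c : L, c ≠ 0 ∧ (Projectivization.mk L x hx).rep = c • x := by
  obtain ⟨a, ha⟩ := Projectivization.exists_smul_eq_mk_rep L x hx
  exact ⟨a, a.ne_zero, ha.symm⟩

lemma pre_scale {R : Type} [Field R] {n d : ℕ} {u : Idx n d → R} {x : Fin n → R} {a : R}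
    (ha : a ≠ 0) (h : Pre (sy u) x) : Pre (sy u) (a • x) := by
  have hs := Pool.Agent.W193.UB.sy_hom (R := R) u
  obtain ⟨m, l, hml, c, hc, h1⟩ := h
  refine ⟨m, l, hml, a ^ d ^ l * c * (a ^ d ^ m)⁻¹,
    mul_ne_zero (mul_ne_zero (pow_ne_zero _ ha) hc) (inv_ne_zero (pow_ne_zero _ ha)), ?_⟩
  rw [it_smul hs, it_smul hs, h1, smul_smul, smul_smul]
  congr 1
  rw [mul_assoc, inv_mul_cancel₀ (pow_ne_zero _ ha), mul_one]

section

variable {α : Type} {U : Ultrafilter α} {R K k : Type} [CommRing R] [Field K] [CharZero K]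
    [Algebra R K] [Field k] (ψ : K →+* UP U k)
    (τ : AlgebraicClosure K →+* UP U (AlgebraicClosure k))
    (hτ : ∀ c, τ (algebraMap K (AlgebraicClosure K) c) = jU U (ψ c)) (ev : α → R →+* k)
    (hψ : ∀ r, ψ (algebraMap R K r) = up U k fun w => ev w r)

include hτ hψ in
/-- **The specialisation of the preperiodic points of bounded degree.** -/
theorem bij {n d s B : ℕ} {v : Idx n d → R} (hM : MonIn s (sy fun i => algebraMap R K (v i)))
    (hfin : (preP (sy fun i => algebraMap R K (v i)) B).Finite)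
    (hw : ∀ᶠ w in (U : Filter α), (∃ s, MonIn s (sy fun i => ev w (v i))) ∧
      (preP (sy fun i => ev w (v i)) B).encard =
      (preP (sy fun i => algebraMap R K (v i)) B).encard)
    {q : ℕ} (a : Fin q → ℕ) (G : ∀ j, MvPolynomial (Fin (a j) × Fin n) R)
    (hG : ∀ j, Multi (G j)) :
    ∀ᶠ w in (U : Filter α), ∃ φ : (preP (sy fun i => algebraMap R K (v i)) B) ≃
      (preP (sy fun i => ev w (v i)) B),
      ∀ j, ∀ p : Fin (a j) → preP (sy fun i => algebraMap R K (v i)) B,
        Van ((G j).map (algebraMap R K)) (fun i => (p i).1) ↔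
        Van ((G j).map (ev w)) (fun i => (φ (p i)).1) := by
  classical
  set T := preP (sy fun i => algebraMap R K (v i)) B with hT
  have hTf : Finite T := hfin.to_subtype
  have hex : ∀ y : T, ∃ i, y.1.rep i ≠ 0 := fun y => Function.ne_iff.1 y.1.rep_nonzero
  choose i0 hi0 using hex
  set z : T → Fin n → AlgebraicClosure K := fun y => (y.1.rep (i0 y))⁻¹ • y.1.rep with hz
  have hzpre : ∀ y : T, Pre (sy fun i => algebraMap K (AlgebraicClosure K)
      (algebraMap R K (v i))) (z y) := by
    intro y
    exact pre_scale (inv_ne_zero (hi0 y)) ((orb_iff hM y.1.rep_nonzero).1 y.2.1)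
  have hzdeg : ∀ y : T, DegLe K B (z y) := by
    intro y
    exact ((deg_iff y.1.rep_nonzero).1 y.2.2).smul (inv_ne_zero (hi0 y))
  have hfam : ∀ y : T, ∃ x : α → Fin n → AlgebraicClosure k,
      (∀ j, τ (z y j) = up U (AlgebraicClosure k) fun w => x w j) ∧
      (∀ᶠ w in (U : Filter α), DegLe k B (x w)) ∧ ∀ᶠ w in (U : Filter α), x w (i0 y) = 1 := by
    intro y
    refine fam ψ τ hτ ?_ (hzdeg y)
    rw [hz]
    simp only
    rw [Pi.smul_apply, smul_eq_mul, inv_mul_cancel₀ (hi0 y)]
  choose x hx hxd hx1 using hfam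
  have hpre : ∀ y : T, ∀ᶠ w in (U : Filter α),
      Pre (sy fun i => algebraMap k (AlgebraicClosure k) (ev w (v i))) (x y w) := by
    intro y
    exact fam_pre (vw := fun i w => ev w (v i)) ψ τ hτ (fun i => hψ (v i)) (hx y) (hzpre y)
  have hne : ∀ y y' : T, y ≠ y' → ∀ᶠ w in (U : Filter α),
      ¬ ∃ c : AlgebraicClosure k, x y w = c • x y' w := by
    intro y y' hyy
    have h1 : ¬ ∀ᶠ w in (U : Filter α), ∀ j, x y w j = x y w (i0 y') * x y' w j := by
      intro h2
      apply hyy
      apply Subtype.ext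
      have h3 : ∀ j, z y j = z y (i0 y') * z y' j := by
        intro j
        apply τ.injective
        rw [map_mul, hx, hx, hx, ← map_mul]
        refine up_eq.2 ?_
        filter_upwards [h2] with w hw
        exact hw j
      have h4 : y.1.rep = (y.1.rep (i0 y) * (z y (i0 y') * (y'.1.rep (i0 y'))⁻¹)) • y'.1.rep := by
        funext j
        have h4 := h3 j
        have h5 := hi0 y
        have h6 : z y j = (y.1.rep (i0 y))⁻¹ * y.1.rep j := rfl
        have h7 : z y' j = (y'.1.rep (i0 y'))⁻¹ * y'.1.rep j := rfl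
        rw [Pi.smul_apply, smul_eq_mul]
        calc y.1.rep j = y.1.rep (i0 y) * ((y.1.rep (i0 y))⁻¹ * y.1.rep j) := by field_simp
          _ = _ := by rw [← h6, h4, h7]; ring
      rw [← y.1.mk_rep, ← y'.1.mk_rep, Projectivization.mk_eq_mk_iff']
      exact ⟨_, h4.symm⟩
    have h2 := Ultrafilter.eventually_not.2 h1
    filter_upwards [h2, hx1 y, hx1 y'] with w hw hw1 hw2
    rintro ⟨c, hc⟩
    apply hw
    intro j
    have h3 : x y w (i0 y') = c := by
      rw [hc, Pi.smul_apply, smul_eq_mul, hw2, mul_one]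
    rw [h3]
    exact congrFun hc j
  have hpre' := (Filter.eventually_all (l := (U : Filter α))).2 hpre
  have hxd' := (Filter.eventually_all (l := (U : Filter α))).2 hxd
  have hx1' := (Filter.eventually_all (l := (U : Filter α))).2 hx1
  have hne' : ∀ᶠ w in (U : Filter α), ∀ y y' : T, y ≠ y' →
      ¬ ∃ c : AlgebraicClosure k, x y w = c • x y' w := by
    rw [Filter.eventually_all]
    intro y
    rw [Filter.eventually_all]
    intro y'
    by_cases h1 : y = y'
    · exact Filter.Eventually.of_forall fun w h2 => absurd h1 h2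
    · filter_upwards [hne y y' h1] with w hw _
      exact hw
  -- the relations
  have hrel : ∀ᶠ w in (U : Filter α), ∀ j, ∀ p : Fin (a j) → T,
      (aeval (fun r : Fin (a j) × Fin n => z (p r.1) r.2) ((G j).map (algebraMap R K)) = 0 ↔
        aeval (fun r : Fin (a j) × Fin n => x (p r.1) w r.2) ((G j).map (ev w)) = 0) := by
    rw [Filter.eventually_all]
    intro j
    rw [Filter.eventually_all]
    intro p
    have h1 := up_aeval ψ τ hτ ev hψ (z := fun r : Fin (a j) × Fin n => z (p r.1) r.2)
      (x := fun w (r : Fin (a j) × Fin n) => x (p r.1) w r.2) (fun r => hx (p r.1) r.2) (G j)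
    by_cases h0 : aeval (fun r : Fin (a j) × Fin n => z (p r.1) r.2)
        ((G j).map (algebraMap R K)) = 0
    · rw [h0, map_zero] at h1
      filter_upwards [up_eq_zero.1 h1.symm] with w hw
      exact ⟨fun _ => hw, fun _ => h0⟩
    · have h2 : ¬ ∀ᶠ w in (U : Filter α),
          aeval (fun r : Fin (a j) × Fin n => x (p r.1) w r.2) ((G j).map (ev w)) = 0 := by
        intro h3
        rw [up_eq_zero.2 h3, map_eq_zero] at h1
        exact h0 h1
      filter_upwards [Ultrafilter.eventually_not.2 h2] with w hw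
      exact ⟨fun h => absurd h h0, fun h => absurd h hw⟩
  filter_upwards [hpre', hxd', hx1', hne', hrel, hw] with w h1 h2 h3 h4 h5 h6
  obtain ⟨⟨s', hMw⟩, hcard⟩ := h6
  have hx0 : ∀ y, x y w ≠ 0 := by
    intro y h0
    have := h3 y
    rw [h0] at this
    exact zero_ne_one this
  have hmem : ∀ y : T, Projectivization.mk (AlgebraicClosure k) (x y w) (hx0 y) ∈
      preP (sy fun i => ev w (v i)) B := by
    intro y
    obtain ⟨c, hc, hrep⟩ := mk_rep_smul (hx0 y)
    refine ⟨?_, ?_⟩
    · rw [orb_iff hMw (Projectivization.rep_nonzero _), hrep]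
      exact pre_scale hc (h1 y)
    · rw [deg_iff (Projectivization.rep_nonzero _), hrep]
      exact (h2 y).smul hc
  let f : T → preP (sy fun i => ev w (v i)) B := fun y => ⟨_, hmem y⟩
  have hfinj : Function.Injective f := by
    intro y y' hyy
    by_contra hne
    have h7 := congrArg Subtype.val hyy
    simp only [f] at h7
    rw [Projectivization.mk_eq_mk_iff'] at h7
    obtain ⟨c, hc⟩ := h7
    exact h4 y y' hne ⟨c, hc.symm⟩
  have hfin' : (preP (sy fun i => ev w (v i)) B).Finite := by
    rw [← Set.encard_lt_top_iff, hcard, Set.encard_lt_top_iff]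
    exact hfin
  have hfbij : Function.Bijective f := by
    have := hfin'.to_subtype
    refine hfinj.bijective_of_nat_card_le ?_
    rw [Nat.card_coe_set_eq, Nat.card_coe_set_eq, Set.ncard_def, Set.ncard_def, hcard]
  refine ⟨Equiv.ofBijective f hfbij, fun j p => ?_⟩
  have h7 := h5 j p
  have h8 : Van ((G j).map (algebraMap R K)) (fun i => (p i).1) ↔
      aeval (fun r : Fin (a j) × Fin n => z (p r.1) r.2) ((G j).map (algebraMap R K)) = 0 := by
    refine map_zero_scale (algebraMap R K) (hG j) (fun i => z (p i)) (fun i => (p i).1.rep) ?_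
    intro i
    refine ⟨(p i).1.rep (i0 (p i)), hi0 _, ?_⟩
    rw [hz]
    simp only
    rw [smul_smul, mul_inv_cancel₀ (hi0 _), one_smul]
  have h9 : Van ((G j).map (ev w)) (fun i => (f (p i)).1) ↔
      aeval (fun r : Fin (a j) × Fin n => x (p r.1) w r.2) ((G j).map (ev w)) = 0 := by
    refine map_zero_scale (ev w) (hG j) (fun i => x (p i) w) (fun i => (f (p i)).1.rep) ?_
    intro i
    exact mk_rep_smul (hx0 (p i))
  exact h8.trans (h7.trans h9.symm)

end

end Pool.Agent.N455.AV
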