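import Pool.Agent.N455.AV.Group
set_option autoImplicit false
set_option linter.unusedSectionVars false

/-! The torsion points of the members of families of abelian varieties (helper455). -/

namespace Pool.Agent.N455.AV
open Pool.Agent.Y706 (MorP preP vec tp imgP degP orbP)
open Pool.Agent.N455
open Pool.Agent.N666.TM Pool.Agent.N455.TX Pool.Agent.N455.HT
open Pool.Agent.N938.TD (EquiA)

open MvPolynomial NumberField LinearAlgebra.Projectivization Filter

/-- the numbers of the groups of variables -/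
def ar0 (q s : ℕ) : Fin q ⊕ Fin s → ℕ
  | .inl _ => 1
  | .inr _ => 3

/-- the forms -/
noncomputable def G0 {R : Type} [CommRing R] {q s n : ℕ} (A : Fin q → MvPolynomial (Fin n) R)
    (H : Fin s → MvPolynomial (Fin 3 × Fin n) R) :
    ∀ i : Fin q ⊕ Fin s, MvPolynomial (Fin (ar0 q s i) × Fin n) R
  | .inl j => rename (fun l => ((0 : Fin 1), l)) (A j)
  | .inr j => H j

lemma multi_rename {R : Type} [CommRing R] {n e : ℕ} {P : MvPolynomial (Fin n) R}
    (hP : P.IsHomogeneous e) : Multi (rename (fun l => ((0 : Fin 1), l)) P) := by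
  classical
  have hinj : Function.Injective fun l : Fin n => ((0 : Fin 1), l) := by
    intro l l' h
    exact (Prod.mk.inj h).2
  refine ⟨fun _ => e, ?_⟩
  intro t ht i
  rw [support_rename_of_injective hinj, Finset.mem_image] at ht
  obtain ⟨u, hu, rfl⟩ := ht
  have h1 : ∀ l, (Finsupp.mapDomain (fun l : Fin n => ((0 : Fin 1), l)) u) (i, l) = u l := by
    intro l
    have h2 : (i, l) = (fun l : Fin n => ((0 : Fin 1), l)) l := by
      rw [Subsingleton.elim i 0]
    rw [h2, Finsupp.mapDomain_apply hinj]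
  rw [Finset.sum_congr rfl fun l _ => h1 l]
  have h3 := hP (mem_support_iff.1 hu)
  have h4 : Finsupp.degree u = e := by
    rw [Finsupp.degree_eq_weight_one]
    exact h3
  rw [← Finsupp.degree_eq_sum, h4]

lemma van_rename {R K : Type} [CommRing R] [Field K] {n : ℕ} (φ : R →+* K)
    (P : MvPolynomial (Fin n) R)
    (p : Fin 1 → ℙ (AlgebraicClosure K) (Fin n → AlgebraicClosure K)) :
    Van ((rename (fun l => ((0 : Fin 1), l)) P).map φ) p ↔ aeval (p 0).rep (P.map φ) = 0 := by
  unfold Van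
  rw [map_rename, aeval_rename]
  rfl

section

variable {k : Type} [Field k] [NumberField k] {N m d q s B : ℕ}

/-- **The torsion points of a member.** -/
theorem good_tor {F : Fin (N + 1) → MvPolynomial (Fin (N + 1)) (MvPolynomial (Fin m) k)}
    (hF : ∀ i, (F i).IsHomogeneous d) {A : Fin q → MvPolynomial (Fin (N + 1)) (MvPolynomial (Fin m) k)}
    {H : Fin s → MvPolynomial (Fin 3 × Fin (N + 1)) (MvPolynomial (Fin m) k)} {v : Fin (m + 1) → 𝓞 k}
    (hgood : Good F B (fun j => ar0 q s (finSumFinEquiv.symm j))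
      (fun j => G0 A H (finSumFinEquiv.symm j)) v)
    (g : AddCommGroup (Pts fun j => (A j).map (algebraMap (MvPolynomial (Fin m) k)
      (FractionRing (MvPolynomial (Fin m) k))))) {e : ℕ} (he : 2 ≤ e)
    (hG : GM (fun i => (F i).map (algebraMap (MvPolynomial (Fin m) k)
      (FractionRing (MvPolynomial (Fin m) k)))) _
      (fun j => (H j).map (algebraMap (MvPolynomial (Fin m) k)
      (FractionRing (MvPolynomial (Fin m) k)))) g e)
    (g' : AddCommGroup (Pts fun j => (A j).map (MvPolynomial.eval fun l : Fin m =>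
        algebraMap (𝓞 k) k (v l.succ) / algebraMap (𝓞 k) k (v 0)))) {e' : ℕ} (he' : 2 ≤ e')
    (hG' : GM (fun i => (F i).map (MvPolynomial.eval fun l : Fin m =>
        algebraMap (𝓞 k) k (v l.succ) / algebraMap (𝓞 k) k (v 0))) _
      (fun j => (H j).map (MvPolynomial.eval fun l : Fin m =>
        algebraMap (𝓞 k) k (v l.succ) / algebraMap (𝓞 k) k (v 0))) g' e') :
    ∃ φ : Tor _ g B ≃ Tor _ g' B, ∀ x y z : Tor _ g B,
      x.1 + y.1 = z.1 ↔ (φ x).1 + (φ y).1 = (φ z).1 := by
  classical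
  obtain ⟨-, -, φ₀, hφ⟩ := hgood
  have hF1 : ∀ i, ((F i).map (algebraMap (MvPolynomial (Fin m) k)
      (FractionRing (MvPolynomial (Fin m) k)))).IsHomogeneous d := fun i => (hF i).map _
  have hF2 : ∀ i, ((F i).map (MvPolynomial.eval fun l : Fin m =>
        algebraMap (𝓞 k) k (v l.succ) / algebraMap (𝓞 k) k (v 0))).IsHomogeneous d :=
    fun i => (hF i).map _
  have hP : ∀ i : Fin q ⊕ Fin s, ∀ p : Fin (ar0 q s i) → (preP (fun i => (F i).map
      (algebraMap (MvPolynomial (Fin m) k) (FractionRing (MvPolynomial (Fin m) k)))) B),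
        Van ((G0 A H i).map (algebraMap (MvPolynomial (Fin m) k)
          (FractionRing (MvPolynomial (Fin m) k)))) (fun i => (p i).1) ↔
        Van ((G0 A H i).map (MvPolynomial.eval fun l : Fin m =>
          algebraMap (𝓞 k) k (v l.succ) / algebraMap (𝓞 k) k (v 0))) (fun i => (φ₀ (p i)).1) := by
    intro i
    obtain ⟨j, rfl⟩ := (finSumFinEquiv (m := q) (n := s)).symm.surjective i
    exact hφ j
  have hA : ∀ p, (∀ j, aeval p.1.rep ((A j).map (algebraMap (MvPolynomial (Fin m) k)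
      (FractionRing (MvPolynomial (Fin m) k)))) = 0) ↔
      ∀ j, aeval (φ₀ p).1.rep ((A j).map (MvPolynomial.eval fun l : Fin m =>
        algebraMap (𝓞 k) k (v l.succ) / algebraMap (𝓞 k) k (v 0))) = 0 := by
    intro p
    refine forall_congr' fun j => ?_
    have h1 := hP (Sum.inl j) (fun _ => p)
    exact (van_rename _ (A j) (fun _ => p.1)).symm.trans
      (h1.trans (van_rename _ (A j) (fun _ => (φ₀ p).1)))
  let φ₁ : {p : (preP (fun i => (F i).map (algebraMap (MvPolynomial (Fin m) k)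
      (FractionRing (MvPolynomial (Fin m) k)))) B) //
      ∀ j, aeval p.1.rep ((A j).map (algebraMap (MvPolynomial (Fin m) k)
      (FractionRing (MvPolynomial (Fin m) k)))) = 0} ≃
      {p : (preP (fun i => (F i).map (MvPolynomial.eval fun l : Fin m =>
        algebraMap (𝓞 k) k (v l.succ) / algebraMap (𝓞 k) k (v 0))) B) //
      ∀ j, aeval p.1.rep ((A j).map (MvPolynomial.eval fun l : Fin m =>
        algebraMap (𝓞 k) k (v l.succ) / algebraMap (𝓞 k) k (v 0))) = 0} := φ₀.subtypeEquiv hA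
  refine ⟨(torEquiv hF1 g he hG B).trans (φ₁.trans (torEquiv hF2 g' he' hG' B).symm), ?_⟩
  intro x y z
  rw [hG.1, hG'.1]
  refine forall_congr' fun j => ?_
  have h1 := hP (Sum.inr j) ![(torEquiv hF1 g he hG B x).1, (torEquiv hF1 g he hG B y).1,
    (torEquiv hF1 g he hG B z).1]
  have h2 : (fun i => ((![(torEquiv hF1 g he hG B x).1, (torEquiv hF1 g he hG B y).1,
      (torEquiv hF1 g he hG B z).1] : Fin 3 → _) i).1) = ![x.1.1, y.1.1, z.1.1] := by
    funext i
    fin_cases i <;> rfl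
  have h3 : (fun i => (φ₀ ((![(torEquiv hF1 g he hG B x).1, (torEquiv hF1 g he hG B y).1,
      (torEquiv hF1 g he hG B z).1] : Fin 3 → _) i)).1) =
      ![(φ₀ (torEquiv hF1 g he hG B x).1).1, (φ₀ (torEquiv hF1 g he hG B y).1).1,
        (φ₀ (torEquiv hF1 g he hG B z).1).1] := by
    funext i
    fin_cases i <;> rfl
  have h4 : Van ((H j).map (algebraMap (MvPolynomial (Fin m) k)
      (FractionRing (MvPolynomial (Fin m) k)))) ![x.1.1, y.1.1, z.1.1] ↔
      Van ((H j).map (MvPolynomial.eval fun l : Fin m =>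
        algebraMap (𝓞 k) k (v l.succ) / algebraMap (𝓞 k) k (v 0)))
        ![(φ₀ (torEquiv hF1 g he hG B x).1).1, (φ₀ (torEquiv hF1 g he hG B y).1).1,
        (φ₀ (torEquiv hF1 g he hG B z).1).1] := by
    rw [← h2, ← h3]
    exact h1
  exact h4

end

/-- **Families of abelian varieties along equidistributed arrays of parameters.** -/
theorem av {x : ℕ → ℕ → ℕ → ℤ} {S₁ S₂ : ℕ → Finset ℕ}
    (hS₁ : ∀ N, S₁ N ⊆ Finset.Ioc N (2 * N)) (hS₂ : ∀ N, S₂ N ⊆ Finset.Ioc N (2 * N))
    (h₁ : EquiA S₁ x) (h₂ : EquiA S₂ x) :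
    ∃ E : Set ℕ, NullIn S₁ E ∧ NullIn S₂ E ∧
      ∀ (k : Subfield ℂ) [NumberField k] (r : ℕ) (ω : Module.Basis (Fin r) ℤ (𝓞 k)) (N d : ℕ),
        2 ≤ d → ∀ (m : ℕ) (F : Fin (N + 1) → MvPolynomial (Fin (N + 1)) (MvPolynomial (Fin m) k)),
        (∀ i, (F i).IsHomogeneous d) → (MorP fun i => (F i).map
          (algebraMap (MvPolynomial (Fin m) k) (FractionRing (MvPolynomial (Fin m) k)))) →
        ∀ (q s : ℕ) (A : Fin q → MvPolynomial (Fin (N + 1)) (MvPolynomial (Fin m) k))
          (H : Fin s → MvPolynomial (Fin 3 × Fin (N + 1)) (MvPolynomial (Fin m) k)),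
        (∀ j, ∃ e, (A j).IsHomogeneous e) → (∀ j, Multi (H j)) →
        ∀ (g : AddCommGroup (Pts fun j => (A j).map (algebraMap (MvPolynomial (Fin m) k)
          (FractionRing (MvPolynomial (Fin m) k))))) (e : ℕ), 2 ≤ e →
          GM (fun i => (F i).map (algebraMap (MvPolynomial (Fin m) k)
            (FractionRing (MvPolynomial (Fin m) k)))) _
            (fun j => (H j).map (algebraMap (MvPolynomial (Fin m) k)
              (FractionRing (MvPolynomial (Fin m) k)))) g e →
        ∀ B : ℕ, (Tor _ g B).Finite ∧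
          {t : ℕ | t ∉ E ∧ ∃ v : Fin (m + 1) → 𝓞 k,
            v = (fun l : Fin (m + 1) => ∑ j : Fin r, x l j t • ω j) ∧ ¬ (v 0 ≠ 0 ∧
            MorP (fun i => (F i).map (MvPolynomial.eval fun l : Fin m =>
              algebraMap (𝓞 k) k (v l.succ) / algebraMap (𝓞 k) k (v 0))) ∧
            ∀ (g' : AddCommGroup (Pts fun j => (A j).map (MvPolynomial.eval fun l : Fin m =>
              algebraMap (𝓞 k) k (v l.succ) / algebraMap (𝓞 k) k (v 0)))) (e' : ℕ), 2 ≤ e' →
              GM (fun i => (F i).map (MvPolynomial.eval fun l : Fin m =>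
                algebraMap (𝓞 k) k (v l.succ) / algebraMap (𝓞 k) k (v 0))) _
              (fun j => (H j).map (MvPolynomial.eval fun l : Fin m =>
                algebraMap (𝓞 k) k (v l.succ) / algebraMap (𝓞 k) k (v 0))) g' e' →
              ∃ φ : Tor _ g B ≃ Tor _ g' B, ∀ x y z : Tor _ g B,
                x.1 + y.1 = z.1 ↔ (φ x).1 + (φ y).1 = (φ z).1)}.Finite := by
  obtain ⟨E, h1, h2, h3⟩ := all hS₁ hS₂ h₁ h₂
  refine ⟨E, h1, h2, ?_⟩
  intro k _ r ω N d hd m F hF hmor q s A H hA hH g e he hG B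
  obtain ⟨h4, h5⟩ := h3 k r ω N d hd m F hF hmor B
  refine ⟨tor_finite (fun i => (hF i).map _) g he hG h4, ?_⟩
  refine (h5 (q + s) (fun j => ar0 q s (finSumFinEquiv.symm j))
    (fun j => G0 A H (finSumFinEquiv.symm j)) ?_).subset ?_
  · intro j
    obtain ⟨i, hi⟩ : ∃ i, finSumFinEquiv.symm j = i := ⟨_, rfl⟩
    rw [hi]
    rcases i with i | i
    · obtain ⟨e, he⟩ := hA i
      exact multi_rename he
    · exact hH i
  · rintro t ⟨htE, v, rfl, ht⟩
    refine ⟨htE, fun hgood => ht ⟨hgood.1, hgood.2.1, ?_⟩⟩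
    intro g' e' he' hG'
    exact good_tor hF hgood g he hG g' he' hG'

end Pool.Agent.N455.AV
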