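import Pool.Agent.N455.AV.Pt
set_option autoImplicit false
set_option linter.unusedSectionVars false

/-! The members of a family of abelian varieties (helper455). -/

namespace Pool.Agent.N455.AV
open Pool.Agent.Y706
open Pool.Agent.N455
open Pool.Agent.N666.TM Pool.Agent.N455.HT
open Pool.Agent.N938.TD (EquiA nf_countable field_countable basis_countable mv_countable vec_eq)

open MvPolynomial NumberField LinearAlgebra.Projectivization Filter

lemma grp_congr {X : Type*} {Z Z' : X → Prop} {R R' : X → X → X → Prop} {M M' : X → X → Prop}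
    {e : ℕ} (hZ : ∀ p, Z p ↔ Z' p) (hR : ∀ x y z, R x y z ↔ R' x y z)
    (hM : ∀ x y, M x y ↔ M' x y) (h : ∃ g, IsGrp Z R M e g) : ∃ g, IsGrp Z' R' M' e g := by
  obtain rfl : Z = Z' := funext fun p => propext (hZ p)
  obtain rfl : R = R' := funext fun x => funext fun y => funext fun z => propext (hR x y z)
  obtain rfl : M = M' := funext fun x => funext fun y => propext (hM x y)
  exact h

/-- the points over an extension -/
def ZO {K : Type} [Field K] (Ω : Type) [Field Ω] [Algebra K Ω] {n q : ℕ}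
    (A : Fin q → MvPolynomial (Fin n) K) (p : ℙ Ω (Fin n → Ω)) : Prop :=
  ∀ j, aeval p.rep (A j) = 0

/-- the addition over an extension -/
def RO {K : Type} [Field K] (Ω : Type) [Field Ω] [Algebra K Ω] {n s : ℕ}
    (H : Fin s → MvPolynomial (Fin 3 × Fin n) K) (x y z : ℙ Ω (Fin n → Ω)) : Prop :=
  ∀ j, aeval (fun q : Fin 3 × Fin n => (![x, y, z] q.1).rep q.2) (H j) = 0

/-- the data define a group over the extension -/
def GO {K : Type} [Field K] (Ω : Type) [Field Ω] [Algebra K Ω] {n q s : ℕ}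
    (F : Fin n → MvPolynomial (Fin n) K) (A : Fin q → MvPolynomial (Fin n) K)
    (H : Fin s → MvPolynomial (Fin 3 × Fin n) K)
    (_ : AddCommGroup {p : ℙ Ω (Fin n → Ω) // ZO Ω A p}) (e : ℕ) : Prop :=
  (∀ x y z : {p : ℙ Ω (Fin n → Ω) // ZO Ω A p}, x + y = z ↔ RO Ω H x.1 y.1 z.1) ∧
  ∀ x : {p : ℙ Ω (Fin n → Ω) // ZO Ω A p}, Submodule.span Ω {fun i => aeval x.1.rep (F i)} =
    Submodule.span Ω {(e • x : {p : ℙ Ω (Fin n → Ω) // ZO Ω A p}).1.rep}

lemma span_iff {L : Type} [Field L] {n : ℕ} {x y : Fin n → L} (hy : y ≠ 0) :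
    (∃ c : L, c ≠ 0 ∧ x = c • y) ↔ Submodule.span L {x} = Submodule.span L {y} := by
  constructor
  · rintro ⟨c, hc, rfl⟩
    exact Submodule.span_singleton_smul_eq (isUnit_iff_ne_zero.2 hc) _
  · intro h
    have h1 : x ∈ Submodule.span L {y} := by
      rw [← h]
      exact Submodule.mem_span_singleton_self _
    obtain ⟨c, rfl⟩ := Submodule.mem_span_singleton.1 h1
    refine ⟨c, ?_, rfl⟩
    rintro rfl
    rw [zero_smul, Submodule.span_zero_singleton] at h
    exact hy (Submodule.span_singleton_eq_bot.1 h.symm)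

section

variable {R K : Type} [CommRing R] [Field K] (φ : R →+* K) (Ω : Type) [Field Ω] [Algebra K Ω]
  {n q s e : ℕ} (F : Fin n → MvPolynomial (Fin n) R) (A : Fin q → MvPolynomial (Fin n) R)
  (H : Fin s → MvPolynomial (Fin 3 × Fin n) R)

lemma zp_iff (p : ℙ Ω (Fin n → Ω)) :
    Zp ((algebraMap K Ω).comp φ) A p ↔ ZO Ω (fun j => (A j).map φ) p := by
  unfold Zp ZO
  refine forall_congr' fun j => ?_
  rw [aeval_def, eval₂_map]

lemma rp_iff (x y z : ℙ Ω (Fin n → Ω)) :
    Rp ((algebraMap K Ω).comp φ) H x y z ↔ RO Ω (fun j => (H j).map φ) x y z := by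
  unfold Rp RO
  refine forall_congr' fun j => ?_
  rw [aeval_def, eval₂_map]

lemma mp_iff (x y : ℙ Ω (Fin n → Ω)) :
    Mp ((algebraMap K Ω).comp φ) F x y ↔ Submodule.span Ω {fun i => aeval x.rep ((F i).map φ)} =
      Submodule.span Ω {y.rep} := by
  unfold Mp
  rw [span_iff y.rep_nonzero]
  have h : (fun i => eval₂ ((algebraMap K Ω).comp φ) x.rep (F i)) =
      fun i => aeval x.rep ((F i).map φ) := by
    funext i
    rw [aeval_def, eval₂_map]
  rw [h]

theorem grp_iff : (∃ g, IsGrp (Zp ((algebraMap K Ω).comp φ) A) (Rp ((algebraMap K Ω).comp φ) H)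
      (Mp ((algebraMap K Ω).comp φ) F) e g) ↔
    ∃ g, GO Ω (fun i => (F i).map φ) (fun j => (A j).map φ) (fun j => (H j).map φ) g (e + 1) := by
  constructor
  · intro h
    obtain ⟨g, h1, h2⟩ := grp_congr (zp_iff φ Ω A) (rp_iff φ Ω H) (mp_iff φ Ω F) h
    exact ⟨g, h1, fun x => (h2 x _).2 rfl⟩
  · rintro ⟨g, h1, h2⟩
    refine grp_congr (fun p => (zp_iff φ Ω A p).symm) (fun x y z => (rp_iff φ Ω H x y z).symm)
      (fun x y => (mp_iff φ Ω F x y).symm) ⟨g, h1, fun x y => ?_⟩
    have h4 : Submodule.span Ω {fun i => aeval x.1.rep ((F i).map φ)} =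
        Submodule.span Ω {((e + 1) • x : {p : ℙ Ω (Fin n → Ω) //
          ZO Ω (fun j => (A j).map φ) p}).1.rep} := h2 x
    have h5 : (Submodule.span Ω {fun i => aeval x.1.rep ((F i).map φ)} =
        Submodule.span Ω {y.1.rep}) ↔ (e + 1) • x = y := by
      rw [h4]
      constructor
      · intro h3
        apply Subtype.ext
        apply Projectivization.submodule_injective
        rw [Projectivization.submodule_eq, Projectivization.submodule_eq]
        exact h3
      · rintro rfl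
        rfl
    exact h5

end

section

variable {k : Type} [Field k] [NumberField k] {J : Type} [Fintype J] {m : ℕ}
  [TX.Sm (Fin (m + 1) × J)] (ω : Module.Basis J ℤ (𝓞 k)) {n q s d e : ℕ}
  {F : Fin n → MvPolynomial (Fin n) (MvPolynomial (Fin m) k)}
  (hF : ∀ i, (F i).IsHomogeneous d)
  {A : Fin q → MvPolynomial (Fin n) (MvPolynomial (Fin m) k)}
  (hA : ∀ j, ∃ c, (A j).IsHomogeneous c)
  {H : Fin s → MvPolynomial (Fin 3 × Fin n) (MvPolynomial (Fin m) k)} (hH : ∀ j, Multi (H j))

include hF hA hH in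
/-- **100% of the members are groups** -/
theorem grp_D0 (hgrp : ∀ (Ω : Type) [Field Ω] [IsAlgClosed Ω]
      [Algebra (FractionRing (MvPolynomial (Fin m) k)) Ω],
      ∃ g, GO Ω (fun i => (F i).map (algebraMap (MvPolynomial (Fin m) k)
        (FractionRing (MvPolynomial (Fin m) k))))
        (fun j => (A j).map (algebraMap (MvPolynomial (Fin m) k)
        (FractionRing (MvPolynomial (Fin m) k))))
        (fun j => (H j).map (algebraMap (MvPolynomial (Fin m) k)
        (FractionRing (MvPolynomial (Fin m) k)))) g (e + 1)) :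
    TX.D0 {w : Fin (m + 1) × J → ℤ | ¬ ∃ g, GO (AlgebraicClosure k)
      (fun i => (F i).map (MvPolynomial.eval (tp ω w)))
      (fun j => (A j).map (MvPolynomial.eval (tp ω w)))
      (fun j => (H j).map (MvPolynomial.eval (tp ω w))) g (e + 1)} := by
  classical
  by_contra hcon
  obtain ⟨U, hU, hUG⟩ := TX.exu (Fin (m + 1) × J) _ hcon
  let iO : Algebra (FractionRing (MvPolynomial (Fin m) k)) (UP U (AlgebraicClosure k)) :=
    ((jU (kb := AlgebraicClosure k) U).comp (psP ω hU)).toAlgebra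
  have hac : IsAlgClosed (UP U (AlgebraicClosure k)) := up_closed
  have h1 := (grp_iff (algebraMap (MvPolynomial (Fin m) k)
    (FractionRing (MvPolynomial (Fin m) k))) (UP U (AlgebraicClosure k)) F A H (e := e)).2
    (hgrp (UP U (AlgebraicClosure k)))
  have h2 : (algebraMap (FractionRing (MvPolynomial (Fin m) k)) (UP U (AlgebraicClosure k))).comp
      (algebraMap (MvPolynomial (Fin m) k) (FractionRing (MvPolynomial (Fin m) k))) =
      evU (fun w => (algebraMap k (AlgebraicClosure k)).comp (MvPolynomial.eval (tp ω w))) U := by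
    refine RingHom.ext fun r => ?_
    show jU (kb := AlgebraicClosure k) U (psP ω hU (algebraMap _ _ r)) = _
    rw [psP_algebraMap, jU_up]
    rfl
  rw [h2] at h1
  obtain ⟨g, hg⟩ := h1
  have h3 := grp_los _ hA hH hF g hg
  obtain ⟨w, hw1, hw2⟩ := (h3.and (Filter.eventually_iff.2 hUG)).exists
  exact hw2 ((grp_iff (MvPolynomial.eval (tp ω w)) (AlgebraicClosure k) F A H (e := e)).1 hw1)

end

lemma gm_of_go {K : Type} [Field K] {n q s e : ℕ} {F : Fin n → MvPolynomial (Fin n) K}
    {A : Fin q → MvPolynomial (Fin n) K} {H : Fin s → MvPolynomial (Fin 3 × Fin n) K}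
    (h : ∃ g, GO (AlgebraicClosure K) F A H g e) : ∃ g : AddCommGroup (Pts A), GM F A H g e := by
  obtain ⟨g, h⟩ := h
  exact ⟨g, h⟩

section

variable {k : Type} [Field k] [NumberField k] {N m d q s B : ℕ}

/-- the conclusion for a member -/
theorem good_all {F : Fin (N + 1) → MvPolynomial (Fin (N + 1)) (MvPolynomial (Fin m) k)}
    (hF : ∀ i, (F i).IsHomogeneous d) {A : Fin q → MvPolynomial (Fin (N + 1)) (MvPolynomial (Fin m) k)}
    (hA : ∀ j, ∃ c, (A j).IsHomogeneous c)
    {H : Fin s → MvPolynomial (Fin 3 × Fin (N + 1)) (MvPolynomial (Fin m) k)}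
    (hH : ∀ j, Multi (H j)) {v : Fin (m + 1) → 𝓞 k}
    (hgood : Good F B (fun j => ar0 q s (finSumFinEquiv.symm j))
      (fun j => G0 A H (finSumFinEquiv.symm j)) v)
    (g : AddCommGroup (Pts fun j => (A j).map (algebraMap (MvPolynomial (Fin m) k)
      (FractionRing (MvPolynomial (Fin m) k))))) {e : ℕ} (he : 2 ≤ e)
    (hG : GM (fun i => (F i).map (algebraMap (MvPolynomial (Fin m) k)
      (FractionRing (MvPolynomial (Fin m) k)))) _
      (fun j => (H j).map (algebraMap (MvPolynomial (Fin m) k)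
      (FractionRing (MvPolynomial (Fin m) k)))) g e)
    (hgo : ∃ g', GO (AlgebraicClosure k)
      (fun i => (F i).map (MvPolynomial.eval fun l : Fin m =>
        algebraMap (𝓞 k) k (v l.succ) / algebraMap (𝓞 k) k (v 0)))
      (fun j => (A j).map (MvPolynomial.eval fun l : Fin m =>
        algebraMap (𝓞 k) k (v l.succ) / algebraMap (𝓞 k) k (v 0)))
      (fun j => (H j).map (MvPolynomial.eval fun l : Fin m =>
        algebraMap (𝓞 k) k (v l.succ) / algebraMap (𝓞 k) k (v 0))) g' e) :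
    v 0 ≠ 0 ∧
      MorP (fun i => (F i).map (MvPolynomial.eval fun l : Fin m =>
        algebraMap (𝓞 k) k (v l.succ) / algebraMap (𝓞 k) k (v 0))) ∧
      ∃ (g' : AddCommGroup (Pts fun j => (A j).map (MvPolynomial.eval fun l : Fin m =>
        algebraMap (𝓞 k) k (v l.succ) / algebraMap (𝓞 k) k (v 0)))),
        GM (fun i => (F i).map (MvPolynomial.eval fun l : Fin m =>
          algebraMap (𝓞 k) k (v l.succ) / algebraMap (𝓞 k) k (v 0))) _
        (fun j => (H j).map (MvPolynomial.eval fun l : Fin m =>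
          algebraMap (𝓞 k) k (v l.succ) / algebraMap (𝓞 k) k (v 0))) g' e ∧
        ∃ φ : Tor _ g B ≃ Tor _ g' B, (∀ x y z : Tor _ g B,
          x.1 + y.1 = z.1 ↔ (φ x).1 + (φ y).1 = (φ z).1) ∧
          ∀ x : Tor _ g B, addOrderOf (φ x).1 = addOrderOf x.1 := by
  obtain ⟨g', hg'⟩ := gm_of_go hgo
  refine ⟨hgood.1, hgood.2.1, g', hg', ?_⟩
  obtain ⟨φ, hφ⟩ := good_tor hF hgood g he hG g' he hg'
  refine ⟨φ, hφ, fun y => ?_⟩
  have hcz : CharZero (FractionRing (MvPolynomial (Fin m) k)) :=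
    charZero_of_injective_algebraMap (R := k) (algebraMap k _).injective
  refine order_pres (fun j => ?_) (fun j => ?_) g hG φ hφ y
  · obtain ⟨c, hc⟩ := hA j
    exact ⟨c, hc.map _⟩
  · obtain ⟨c, hc⟩ := hH j
    exact ⟨c, fun s' hs' => hc s' (MvPolynomial.support_map_subset _ _ hs')⟩

end

/-- a family of groups -/
structure Fam2 where
  k : Subfield ℂ
  hk : NumberField k
  r : ℕ
  N : ℕ
  d : ℕ
  m : ℕ
  B : ℕ
  q : ℕ
  s : ℕ
  e : ℕ
  ω : Module.Basis (Fin r) ℤ (𝓞 k)
  F : Fin (N + 1) → MvPolynomial (Fin (N + 1)) (MvPolynomial (Fin m) k)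
  A : Fin q → MvPolynomial (Fin (N + 1)) (MvPolynomial (Fin m) k)
  H : Fin s → MvPolynomial (Fin 3 × Fin (N + 1)) (MvPolynomial (Fin m) k)
  hd : 2 ≤ d
  hF : ∀ i, (F i).IsHomogeneous d
  hmor : MorP fun i => (F i).map (algebraMap (MvPolynomial (Fin m) k)
      (FractionRing (MvPolynomial (Fin m) k)))
  hA : ∀ j, ∃ c, (A j).IsHomogeneous c
  hH : ∀ j, Multi (H j)
  hgrp : ∀ (Ω : Type) [Field Ω] [IsAlgClosed Ω]
      [Algebra (FractionRing (MvPolynomial (Fin m) k)) Ω],
      ∃ g, GO Ω (fun i => (F i).map (algebraMap (MvPolynomial (Fin m) k)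
        (FractionRing (MvPolynomial (Fin m) k))))
        (fun j => (A j).map (algebraMap (MvPolynomial (Fin m) k)
        (FractionRing (MvPolynomial (Fin m) k))))
        (fun j => (H j).map (algebraMap (MvPolynomial (Fin m) k)
        (FractionRing (MvPolynomial (Fin m) k)))) g (e + 1)

attribute [local instance] Fam2.hk

theorem fam2_countable : Countable Fam2 := by
  have h1 : Countable {k : Subfield ℂ // NumberField k} := nf_countable
  have h2 : ∀ k : {k : Subfield ℂ // NumberField k}, Countable k.1 := fun k => by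
    have := k.2
    exact field_countable k.1
  have h3 : ∀ (k : {k : Subfield ℂ // NumberField k}) (r : ℕ),
      Countable (Module.Basis (Fin r) ℤ (𝓞 k.1)) := fun k r => basis_countable k.1 r
  have h4 : ∀ (k : {k : Subfield ℂ // NumberField k}) (n m : ℕ),
      Countable (MvPolynomial (Fin n) (MvPolynomial (Fin m) k.1)) := fun k n m => by
    have := mv_countable m k.1
    exact mv_countable n _
  have h5 : ∀ (k : {k : Subfield ℂ // NumberField k}) (n m : ℕ),
      Countable (MvPolynomial (Fin 3 × Fin n) (MvPolynomial (Fin m) k.1)) := fun k n m => by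
    have := mv_countable m k.1
    exact mvt_countable _ _
  have h8 : ∀ (k : {k : Subfield ℂ // NumberField k}) (r N m q s : ℕ),
      Countable (Module.Basis (Fin r) ℤ (𝓞 k.1) ×
      (Fin (N + 1) → MvPolynomial (Fin (N + 1)) (MvPolynomial (Fin m) k.1)) ×
      (Fin q → MvPolynomial (Fin (N + 1)) (MvPolynomial (Fin m) k.1)) ×
      (Fin s → MvPolynomial (Fin 3 × Fin (N + 1)) (MvPolynomial (Fin m) k.1))) :=
    fun k r N m q s => by
      have e1 := h3 k r
      have e2 := h4 k (N + 1) m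
      have e3 := h5 k (N + 1) m
      infer_instance
  refine Function.Injective.countable (β := Σ (k : {k : Subfield ℂ // NumberField k}) (r : ℕ)
    (N : ℕ) (_ : ℕ) (m : ℕ) (_ : ℕ) (q : ℕ) (s : ℕ) (_ : ℕ), Module.Basis (Fin r) ℤ (𝓞 k.1) ×
      (Fin (N + 1) → MvPolynomial (Fin (N + 1)) (MvPolynomial (Fin m) k.1)) ×
      (Fin q → MvPolynomial (Fin (N + 1)) (MvPolynomial (Fin m) k.1)) ×
      (Fin s → MvPolynomial (Fin 3 × Fin (N + 1)) (MvPolynomial (Fin m) k.1)))
    (f := fun f => ⟨⟨f.k, f.hk⟩, f.r, f.N, f.d, f.m, f.B, f.q, f.s, f.e, f.ω, f.F, f.A, f.H⟩) ?_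
  rintro ⟨k, hk, r, N, d, m, B, q, s, e, ω, F, A, H, hd, hF, hmor, hA, hH, hg⟩
    ⟨k', hk', r', N', d', m', B', q', s', e', ω', F', A', H', hd', hF', hmor', hA', hH', hg'⟩ h
  cases h
  rfl

/-- **Families of abelian varieties along equidistributed arrays of parameters.** -/
theorem av3 {x : ℕ → ℕ → ℕ → ℤ} {S₁ S₂ : ℕ → Finset ℕ}
    (hS₁ : ∀ N, S₁ N ⊆ Finset.Ioc N (2 * N)) (hS₂ : ∀ N, S₂ N ⊆ Finset.Ioc N (2 * N))
    (h₁ : EquiA S₁ x) (h₂ : EquiA S₂ x) :
    ∃ E : Set ℕ, NullIn S₁ E ∧ NullIn S₂ E ∧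
      ∀ (k : Subfield ℂ) [NumberField k] (r : ℕ) (ω : Module.Basis (Fin r) ℤ (𝓞 k)) (N d : ℕ),
        2 ≤ d → ∀ (m : ℕ) (F : Fin (N + 1) → MvPolynomial (Fin (N + 1)) (MvPolynomial (Fin m) k)),
        (∀ i, (F i).IsHomogeneous d) → (MorP fun i => (F i).map
          (algebraMap (MvPolynomial (Fin m) k) (FractionRing (MvPolynomial (Fin m) k)))) →
        ∀ (q s : ℕ) (A : Fin q → MvPolynomial (Fin (N + 1)) (MvPolynomial (Fin m) k))
          (H : Fin s → MvPolynomial (Fin 3 × Fin (N + 1)) (MvPolynomial (Fin m) k)),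
        (∀ j, ∃ e, (A j).IsHomogeneous e) → (∀ j, Multi (H j)) → ∀ e : ℕ, 2 ≤ e →
        (∀ (Ω : Type) [Field Ω] [IsAlgClosed Ω]
          [Algebra (FractionRing (MvPolynomial (Fin m) k)) Ω],
          ∃ g, GO Ω (fun i => (F i).map (algebraMap (MvPolynomial (Fin m) k)
            (FractionRing (MvPolynomial (Fin m) k))))
            (fun j => (A j).map (algebraMap (MvPolynomial (Fin m) k)
            (FractionRing (MvPolynomial (Fin m) k))))
            (fun j => (H j).map (algebraMap (MvPolynomial (Fin m) k)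
            (FractionRing (MvPolynomial (Fin m) k)))) g e) →
        ∀ (g : AddCommGroup (Pts fun j => (A j).map (algebraMap (MvPolynomial (Fin m) k)
          (FractionRing (MvPolynomial (Fin m) k))))),
          GM (fun i => (F i).map (algebraMap (MvPolynomial (Fin m) k)
            (FractionRing (MvPolynomial (Fin m) k)))) _
            (fun j => (H j).map (algebraMap (MvPolynomial (Fin m) k)
              (FractionRing (MvPolynomial (Fin m) k)))) g e →
        ∀ B : ℕ, (Tor _ g B).Finite ∧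
          {t : ℕ | t ∉ E ∧ ∃ v : Fin (m + 1) → 𝓞 k,
            v = (fun l : Fin (m + 1) => ∑ j : Fin r, x l j t • ω j) ∧ ¬ (v 0 ≠ 0 ∧
            MorP (fun i => (F i).map (MvPolynomial.eval fun l : Fin m =>
              algebraMap (𝓞 k) k (v l.succ) / algebraMap (𝓞 k) k (v 0))) ∧
            ∃ (g' : AddCommGroup (Pts fun j => (A j).map (MvPolynomial.eval fun l : Fin m =>
              algebraMap (𝓞 k) k (v l.succ) / algebraMap (𝓞 k) k (v 0)))),
              GM (fun i => (F i).map (MvPolynomial.eval fun l : Fin m =>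
                algebraMap (𝓞 k) k (v l.succ) / algebraMap (𝓞 k) k (v 0))) _
              (fun j => (H j).map (MvPolynomial.eval fun l : Fin m =>
                algebraMap (𝓞 k) k (v l.succ) / algebraMap (𝓞 k) k (v 0))) g' e ∧
              ∃ φ : Tor _ g B ≃ Tor _ g' B, (∀ x y z : Tor _ g B,
                x.1 + y.1 = z.1 ↔ (φ x).1 + (φ y).1 = (φ z).1) ∧
                ∀ x : Tor _ g B, addOrderOf (φ x).1 = addOrderOf x.1)}.Finite := by
  have := fam2_countable
  have hbad : ∀ f : Fam2, @TX.D0 (Fin (f.m + 1) × Fin f.r) TX.smU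
      {w | ¬ (Good f.F f.B (fun j => ar0 f.q f.s (finSumFinEquiv.symm j))
        (fun j => G0 f.A f.H (finSumFinEquiv.symm j)) (vec f.ω w) ∧
        ∃ g, GO (AlgebraicClosure f.k)
          (fun i => (f.F i).map (MvPolynomial.eval (tp f.ω w)))
          (fun j => (f.A j).map (MvPolynomial.eval (tp f.ω w)))
          (fun j => (f.H j).map (MvPolynomial.eval (tp f.ω w))) g (f.e + 1))} := by
    intro f
    have := f.hk
    let : TX.Sm (Fin (f.m + 1) × Fin f.r) := TX.smU
    have a1 := (main f.ω f.hd f.F f.hF f.hmor f.B (fun j => ar0 f.q f.s (finSumFinEquiv.symm j))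
      (fun j => G0 f.A f.H (finSumFinEquiv.symm j)) (by
        intro j
        obtain ⟨i, hi⟩ : ∃ i, finSumFinEquiv.symm j = i := ⟨_, rfl⟩
        rw [hi]
        rcases i with i | i
        · obtain ⟨e, he⟩ := f.hA i
          exact multi_rename he
        · exact f.hH i)).2
    have a2 := grp_D0 f.ω f.hF f.hA f.hH f.hgrp
    refine (a1.union a2).mono ?_
    intro w hw
    by_contra hcon
    rw [Set.mem_union, not_or] at hcon
    apply hw
    refine ⟨?_, ?_⟩
    · by_contra h
      exact hcon.1 h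
    · by_contra h
      exact hcon.2 h
  obtain ⟨E, h1, h2, h3⟩ := one_set hS₁ hS₂ h₁ h₂ (I := Fam2) (fun f => f.r) (fun f => f.m) _ hbad
  refine ⟨E, h1, h2, ?_⟩
  intro k hk r ω N d hd m F hF hmor q s A H hA hH e he hgrp g hG B
  obtain ⟨e, rfl⟩ : ∃ e', e = e' + 1 := ⟨e - 1, by omega⟩
  have hfin : (preP (fun i => (F i).map (algebraMap (MvPolynomial (Fin m) k)
      (FractionRing (MvPolynomial (Fin m) k)))) B).Finite := by
    let : TX.Sm (Fin (m + 1) × Fin r) := TX.smU
    exact (main ω hd F hF hmor B (q := 0) (fun j => 0) (fun j => 0) (fun j => j.elim0)).1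
  refine ⟨tor_finite (fun i => (hF i).map _) g he hG hfin, ?_⟩
  refine (h3 ⟨k, hk, r, N, d, m, B, q, s, e, ω, F, A, H, hd, hF, hmor, hA, hH, hgrp⟩).subset ?_
  rintro t ⟨htE, v, hv, ht⟩
  refine ⟨htE, ?_⟩
  rintro ⟨hgood, hgo⟩
  have h4 : vec ω (fun q : Fin (m + 1) × Fin r => x q.1 q.2 t) = v := by
    rw [hv]
    exact vec_eq ω _
  apply ht
  clear hv
  subst h4
  exact good_all hF hA hH hgood g he hG hgo

end Pool.Agent.N455.AV
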