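import Pool.Agent.N455.AV.Fin
set_option autoImplicit false
set_option linter.unusedSectionVars false

/-! The multiples of a torsion point are defined over its field (helper455). -/

namespace Pool.Agent.N455.AV
open Pool.Agent.Y706 (MorP preP vec tp imgP degP orbP)
open Pool.Agent.N455

open MvPolynomial LinearAlgebra.Projectivization

section

variable {K : Type} [Field K] {n : ℕ}

/-- the field of a point -/
noncomputable def RatF (K : Type) [Field K] {n : ℕ} (x : Fin n → AlgebraicClosure K) :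
    IntermediateField K (AlgebraicClosure K) :=
  IntermediateField.adjoin K (Set.range fun ij : Fin n × Fin n => x ij.1 / x ij.2)

lemma degP_eq (x : Fin n → AlgebraicClosure K) : degP K x = Module.finrank K (RatF K x) := rfl

lemma ratF_fin (x : Fin n → AlgebraicClosure K) : FiniteDimensional K (RatF K x) := by
  have : Finite (Set.range fun ij : Fin n × Fin n => x ij.1 / x ij.2) :=
    (Set.finite_range _).to_subtype
  exact IntermediateField.finiteDimensional_adjoin fun z _ =>
    (Algebra.IsAlgebraic.isAlgebraic z).isIntegral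

lemma fix_pt {E : IntermediateField K (AlgebraicClosure K)}
    (σ : AlgebraicClosure K ≃ₐ[E] AlgebraicClosure K) {x : Fin n → AlgebraicClosure K}
    (hx : x ≠ 0) (h : RatF K x ≤ E) :
    ∃ c : AlgebraicClosure K, c ≠ 0 ∧ (fun i => σ (x i)) = c • x := by
  obtain ⟨i0, hi0⟩ := Function.ne_iff.1 hx
  refine ⟨σ (x i0) / x i0, div_ne_zero (by rwa [Ne, map_eq_zero]) hi0, ?_⟩
  funext j
  have h1 : x j / x i0 ∈ E := h (IntermediateField.subset_adjoin _ _ ⟨(j, i0), rfl⟩)
  have h2 : σ (x j / x i0) = x j / x i0 := σ.commutes ⟨_, h1⟩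
  have h3 : x j = x j / x i0 * x i0 := by
    rw [div_mul_cancel₀]
    exact hi0
  rw [Pi.smul_apply, smul_eq_mul]
  calc σ (x j) = σ (x j / x i0 * x i0) := by rw [← h3]
    _ = _ := by
      rw [map_mul, h2]
      field_simp

lemma fixed_ratios [CharZero K] {E : IntermediateField K (AlgebraicClosure K)}
    {z : Fin n → AlgebraicClosure K}
    (h : ∀ σ : AlgebraicClosure K ≃ₐ[E] AlgebraicClosure K,
      ∃ c : AlgebraicClosure K, c ≠ 0 ∧ (fun i => σ (z i)) = c • z) : RatF K z ≤ E := by
  unfold RatF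
  rw [IntermediateField.adjoin_le_iff]
  rintro _ ⟨⟨i, j⟩, rfl⟩
  simp only [SetLike.mem_coe]
  have h1 : z i / z j ∈ Set.range (algebraMap E (AlgebraicClosure K)) := by
    rw [InfiniteGalois.mem_range_algebraMap_iff_fixed]
    intro σ
    obtain ⟨c, hc, h2⟩ := h σ
    have h3 : σ (z i) = c * z i := congrFun h2 i
    have h4 : σ (z j) = c * z j := congrFun h2 j
    rw [map_div₀, h3, h4, mul_div_mul_left _ _ hc]
  obtain ⟨y, hy⟩ := h1
  rw [← hy]
  exact y.2

lemma aeval_fix {σ' : Type} (σ : AlgebraicClosure K ≃ₐ[K] AlgebraicClosure K)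
    (x : σ' → AlgebraicClosure K) (P : MvPolynomial σ' K) :
    aeval (fun i => σ (x i)) P = σ (aeval x P) := by
  have h := MvPolynomial.comp_aeval_apply (R := K) (f := x)
    (σ : AlgebraicClosure K →ₐ[K] AlgebraicClosure K) P
  exact h.symm

lemma hom_zero {e : ℕ} {P : MvPolynomial (Fin n) K} (hP : P.IsHomogeneous e)
    {x y : Fin n → AlgebraicClosure K} (h : ∃ c : AlgebraicClosure K, c ≠ 0 ∧ y = c • x) :
    aeval y P = 0 ↔ aeval x P = 0 := by
  obtain ⟨c, hc, rfl⟩ := h
  have h1 := zero_scale (algebraMap K (AlgebraicClosure K)) (multi_rename hP) (fun _ => x)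
    (fun _ => c) (fun _ => hc)
  rw [← aeval_def, ← aeval_def, aeval_rename, aeval_rename] at h1
  exact h1

lemma multi_zero {a : ℕ} {P : MvPolynomial (Fin a × Fin n) K} (hP : Multi P)
    {z z' : Fin a → Fin n → AlgebraicClosure K}
    (h : ∀ i, ∃ c : AlgebraicClosure K, c ≠ 0 ∧ z' i = c • z i) :
    aeval (fun q : Fin a × Fin n => z' q.1 q.2) P = 0 ↔
      aeval (fun q : Fin a × Fin n => z q.1 q.2) P = 0 := by
  choose c hc hz using h
  obtain rfl : z' = fun i => c i • z i := funext hz
  rw [aeval_def, aeval_def]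
  exact zero_scale (algebraMap K (AlgebraicClosure K)) hP z c hc

variable {q s : ℕ} {A : Fin q → MvPolynomial (Fin n) K} (hA : ∀ j, ∃ e, (A j).IsHomogeneous e)

lemma act_ne (σ : AlgebraicClosure K ≃ₐ[K] AlgebraicClosure K) {x : Fin n → AlgebraicClosure K}
    (hx : x ≠ 0) : (fun i => σ (x i)) ≠ 0 := by
  obtain ⟨i0, hi0⟩ := Function.ne_iff.1 hx
  intro h
  apply hi0
  have := congrFun h i0
  exact (map_eq_zero σ).1 this

include hA in
lemma act_mem (σ : AlgebraicClosure K ≃ₐ[K] AlgebraicClosure K) (x : Pts A) (j : Fin q) :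
    aeval (Projectivization.mk (AlgebraicClosure K) (fun i => σ (x.1.rep i))
      (act_ne σ x.1.rep_nonzero)).rep (A j) = 0 := by
  obtain ⟨e, he⟩ := hA j
  rw [hom_zero he (mk_rep_smul _), aeval_fix, x.2 j, map_zero]

/-- the action of the Galois group on the points -/
noncomputable def act (σ : AlgebraicClosure K ≃ₐ[K] AlgebraicClosure K) (x : Pts A) : Pts A :=
  ⟨Projectivization.mk (AlgebraicClosure K) (fun i => σ (x.1.rep i))
      (act_ne σ x.1.rep_nonzero), act_mem hA σ x⟩

lemma act_rep (σ : AlgebraicClosure K ≃ₐ[K] AlgebraicClosure K) (x : Pts A) :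
    ∃ c : AlgebraicClosure K, c ≠ 0 ∧ (act hA σ x).1.rep = c • fun i => σ (x.1.rep i) :=
  mk_rep_smul _

variable {F : Fin n → MvPolynomial (Fin n) K} {H : Fin s → MvPolynomial (Fin 3 × Fin n) K}
  (hH : ∀ j, Multi (H j)) (g : AddCommGroup (Pts A)) {e : ℕ} (hG : GM F A H g e)

include hH hG in
lemma act_add (σ : AlgebraicClosure K ≃ₐ[K] AlgebraicClosure K) (x y : Pts A) :
    act hA σ (x + y) = act hA σ x + act hA σ y := by
  have h1 := (hG.1 x y (x + y)).1 rfl
  refine ((hG.1 (act hA σ x) (act hA σ y) (act hA σ (x + y))).2 ?_).symm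
  intro j
  have h2 := h1 j
  unfold Van at h2 ⊢
  have h3 := multi_zero (hH j) (z := fun i l => σ ((![x.1, y.1, (x + y).1] i).rep l))
    (z' := fun i => (![(act hA σ x).1, (act hA σ y).1, (act hA σ (x + y)).1] i).rep) (by
      intro i
      fin_cases i
      · exact act_rep hA σ x
      · exact act_rep hA σ y
      · exact act_rep hA σ (x + y))
  rw [h3, aeval_fix σ (fun q : Fin 3 × Fin n => (![x.1, y.1, (x + y).1] q.1).rep q.2), h2,
    map_zero]

/-- the action is additive -/
noncomputable def actHom (σ : AlgebraicClosure K ≃ₐ[K] AlgebraicClosure K) : Pts A →+ Pts A :=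
  AddMonoidHom.mk' (act hA σ) (act_add hA hH g hG σ)

include hA hH hG in
/-- **the multiples of a point are defined over its field** -/
lemma ratF_nsmul [CharZero K] (x : Pts A) (i : ℕ) :
    RatF K (i • x : Pts A).1.rep ≤ RatF K x.1.rep := by
  apply fixed_ratios
  intro σ
  set σ₀ := σ.restrictScalars K with hσ₀
  have h1 : act hA σ₀ x = x := by
    apply Subtype.ext
    show Projectivization.mk (AlgebraicClosure K) (fun i => σ₀ (x.1.rep i)) _ = x.1
    obtain ⟨c, hc, h2⟩ := fix_pt σ x.1.rep_nonzero le_rfl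
    conv_rhs => rw [← x.1.mk_rep]
    rw [Projectivization.mk_eq_mk_iff']
    exact ⟨c, h2.symm⟩
  have h2 : act hA σ₀ (i • x : Pts A) = (i • x : Pts A) := by
    have h3 := (actHom hA hH g hG σ₀).map_nsmul i x
    have h4 : (actHom hA hH g hG σ₀) x = x := h1
    rw [h4] at h3
    exact h3
  have h3 := congrArg Subtype.val h2
  have h4 : Projectivization.mk (AlgebraicClosure K) (fun l => σ₀ ((i • x : Pts A).1.rep l))
      (act_ne σ₀ (i • x : Pts A).1.rep_nonzero) =
      Projectivization.mk (AlgebraicClosure K) (i • x : Pts A).1.rep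
        (i • x : Pts A).1.rep_nonzero := by
    rw [Projectivization.mk_rep]
    exact h3
  rw [Projectivization.mk_eq_mk_iff'] at h4
  obtain ⟨c, hc⟩ := h4
  refine ⟨c, ?_, hc.symm⟩
  rintro rfl
  rw [zero_smul] at hc
  exact act_ne σ₀ (i • x : Pts A).1.rep_nonzero hc.symm

include hA hH hG in
lemma tor_nsmul [CharZero K] {B : ℕ} {x : Pts A} (hx : x ∈ Tor A g B) (i : ℕ) :
    (i • x : Pts A) ∈ Tor A g B := by
  refine ⟨hx.1.nsmul, le_trans ?_ hx.2⟩
  rw [degP_eq, degP_eq]
  have := ratF_fin x.1.rep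
  exact IntermediateField.finrank_le_of_le_right (ratF_nsmul hA hH g hG x i)

end

end Pool.Agent.N455.AV
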