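import Pool.Agent.N455.AV.One
set_option autoImplicit false
set_option linter.unusedSectionVars false

/-! Torsion points and preperiodic points (helper455). -/

namespace Pool.Agent.N455.AV
open Pool.Agent.Y706
open Pool.Agent.N455

open MvPolynomial Pool.Agent.H936R2 Pool.Agent.H927R2.RD H294UB Pool.Agent.W275.UB
  Pool.Agent.W193.UB Pool.Agent.W554.UB NumberField LinearAlgebra.Projectivization Filter

/-- the points of a projective variety -/
def Pts {K : Type} [Field K] {n q : ℕ} (A : Fin q → MvPolynomial (Fin n) K) : Type :=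
  {p : ℙ (AlgebraicClosure K) (Fin n → AlgebraicClosure K) // ∀ j, aeval p.rep (A j) = 0}

/-- the addition is given by the forms `H`, and the multiplication by `e` by the forms `F` -/
def GM {K : Type} [Field K] {n q s : ℕ} (F : Fin n → MvPolynomial (Fin n) K)
    (A : Fin q → MvPolynomial (Fin n) K) (H : Fin s → MvPolynomial (Fin 3 × Fin n) K)
    (_ : AddCommGroup (Pts A)) (e : ℕ) : Prop :=
  (∀ x y z : Pts A, x + y = z ↔ ∀ j, Van (H j) ![x.1, y.1, z.1]) ∧
  ∀ x : Pts A, Submodule.span (AlgebraicClosure K) {imgP F x.1.rep} =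
    Submodule.span (AlgebraicClosure K) {(e • x : Pts A).1.rep}

/-- the torsion points of degree at most `B` -/
def Tor {K : Type} [Field K] {n q : ℕ} (A : Fin q → MvPolynomial (Fin n) K)
    (_ : AddCommGroup (Pts A)) (B : ℕ) : Set (Pts A) :=
  {x | IsOfFinAddOrder x ∧ degP K x.1.rep ≤ B}

section

variable {K : Type} [Field K] {n q s d : ℕ} {F : Fin n → MvPolynomial (Fin n) K}
  {A : Fin q → MvPolynomial (Fin n) K} {H : Fin s → MvPolynomial (Fin 3 × Fin n) K}

lemma imgP_smul (hF : ∀ i, (F i).IsHomogeneous d) (c : AlgebraicClosure K)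
    (x : Fin n → AlgebraicClosure K) : imgP F (c • x) = c ^ d • imgP F x := by
  obtain ⟨v, rfl⟩ : ∃ v : Idx n d → K, F = sy v :=
    ⟨fun i => coeff (expo i.2) (F i.1), funext fun i => (form_coeff (hF i)).symm⟩
  rw [imgP_sy]
  exact pt_smul (Pool.Agent.W193.UB.sy_hom _) c x

lemma span_img (hF : ∀ i, (F i).IsHomogeneous d) {u v : Fin n → AlgebraicClosure K} (hv : v ≠ 0)
    (h : Submodule.span (AlgebraicClosure K) {u} = Submodule.span (AlgebraicClosure K) {v}) :
    Submodule.span (AlgebraicClosure K) {imgP F u} =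
      Submodule.span (AlgebraicClosure K) {imgP F v} := by
  have h1 : u ∈ Submodule.span (AlgebraicClosure K) {v} := by
    rw [← h]
    exact Submodule.mem_span_singleton_self _
  obtain ⟨c, rfl⟩ := Submodule.mem_span_singleton.1 h1
  have hc : c ≠ 0 := by
    rintro rfl
    rw [zero_smul, Submodule.span_zero_singleton] at h
    exact hv (Submodule.span_singleton_eq_bot.1 h.symm)
  rw [imgP_smul hF]
  exact Submodule.span_singleton_smul_eq (isUnit_iff_ne_zero.2 (pow_ne_zero _ hc)) _

lemma pts_ext {x y : Pts A} (h : Submodule.span (AlgebraicClosure K) {x.1.rep} =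
    Submodule.span (AlgebraicClosure K) {y.1.rep}) : x = y := by
  apply Subtype.ext
  apply Projectivization.submodule_injective
  rw [Projectivization.submodule_eq, Projectivization.submodule_eq]
  exact h

/-- **torsion points are preperiodic points** -/
lemma tor_iff (hF : ∀ i, (F i).IsHomogeneous d) (g : AddCommGroup (Pts A)) {e : ℕ} (he : 2 ≤ e)
    (hG : GM F A H g e) (x : Pts A) : IsOfFinAddOrder x ↔ (orbP F x.1.rep).Finite := by
  have hit : ∀ j : ℕ, Submodule.span (AlgebraicClosure K) {(imgP F)^[j] x.1.rep} =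
      Submodule.span (AlgebraicClosure K) {(e ^ j • x : Pts A).1.rep} := by
    intro j
    induction j with
    | zero => rw [pow_zero, one_smul]; rfl
    | succ j ih =>
      rw [Function.iterate_succ_apply', span_img hF (Projectivization.rep_nonzero _) ih, hG.2,
        smul_smul, pow_succ, mul_comm]
  constructor
  · intro hx
    have hfin : ((AddSubgroup.zmultiples x : AddSubgroup (Pts A)) : Set (Pts A)).Finite :=
      finite_zmultiples.2 hx
    refine (hfin.image fun y : Pts A => Submodule.span (AlgebraicClosure K) {y.1.rep}).subset ?_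
    rintro _ ⟨j, rfl⟩
    refine ⟨(e ^ j • x : Pts A), ?_, (hit j).symm⟩
    exact AddSubgroup.nsmul_mem_zmultiples x _
  · intro hfin
    have h1 : ¬ Function.Injective fun j : ℕ =>
        Submodule.span (AlgebraicClosure K) {(imgP F)^[j] x.1.rep} := by
      intro hinj
      exact Set.infinite_range_of_injective hinj hfin
    have h2 : ∃ i j : ℕ, i < j ∧ Submodule.span (AlgebraicClosure K) {(imgP F)^[i] x.1.rep} =
        Submodule.span (AlgebraicClosure K) {(imgP F)^[j] x.1.rep} := by
      unfold Function.Injective at h1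
      push Not at h1
      obtain ⟨m, l, h3, h4⟩ := h1
      rcases lt_or_gt_of_ne h4 with h5 | h5
      · exact ⟨m, l, h5, h3⟩
      · exact ⟨l, m, h5, h3.symm⟩
    obtain ⟨i, j, hij, h3⟩ := h2
    rw [hit, hit] at h3
    have h4 : (e ^ i • x : Pts A) = (e ^ j • x : Pts A) := pts_ext h3
    have h5 : e ^ i < e ^ j := Nat.pow_lt_pow_right (by omega) hij
    refine isOfFinAddOrder_iff_nsmul_eq_zero.2 ⟨e ^ j - e ^ i, by omega, ?_⟩
    have h6 : ((e ^ j - e ^ i) • x : Pts A) + e ^ i • x = 0 + e ^ i • x := by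
      rw [← add_smul, Nat.sub_add_cancel h5.le, zero_add]
      exact h4.symm
    exact add_right_cancel h6

/-- the torsion points are the preperiodic points on the variety -/
noncomputable def torEquiv (hF : ∀ i, (F i).IsHomogeneous d) (g : AddCommGroup (Pts A)) {e : ℕ}
    (he : 2 ≤ e) (hG : GM F A H g e) (B : ℕ) :
    Tor A g B ≃ {p : preP F B // ∀ j, aeval p.1.rep (A j) = 0} where
  toFun x := ⟨⟨x.1.1, (tor_iff hF g he hG x.1).1 x.2.1, x.2.2⟩, x.1.2⟩
  invFun p := ⟨⟨p.1.1, p.2⟩, (tor_iff hF g he hG ⟨p.1.1, p.2⟩).2 p.1.2.1, p.1.2.2⟩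
  left_inv _ := rfl
  right_inv _ := rfl

lemma tor_finite (hF : ∀ i, (F i).IsHomogeneous d) (g : AddCommGroup (Pts A)) {e : ℕ} (he : 2 ≤ e)
    (hG : GM F A H g e) {B : ℕ} (h : (preP F B).Finite) : (Tor A g B).Finite := by
  have := h.to_subtype
  have h1 : Finite {p : preP F B // ∀ j, aeval p.1.rep (A j) = 0} := inferInstance
  exact Set.finite_coe_iff.1 (Finite.of_equiv _ (torEquiv hF g he hG B).symm)

end

end Pool.Agent.N455.AV
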