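import Mathlib
set_option autoImplicit false
set_option linter.unusedSectionVars false

/-! Commutative groups given by a ternary relation, in ultraproducts (helper455). -/

namespace Pool.Agent.N455.AV

open Filter

/-- `y` is the `(i + 1)`-fold multiple of `x` -/
def Mul {X : Type*} (Z : X → Prop) (R : X → X → X → Prop) : ℕ → X → X → Prop
  | 0, x, y => y = x
  | i + 1, x, y => ∃ u, Z u ∧ Mul Z R i x u ∧ R u x y

/-- the axioms -/
structure Ax {X : Type*} (Z : X → Prop) (R : X → X → X → Prop) (M : X → X → Prop) (e : ℕ) :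
    Prop where
  ne : ∃ x, Z x
  ex : ∀ x, Z x → ∀ y, Z y → ∃ z, Z z ∧ R x y z
  un : ∀ x, Z x → ∀ y, Z y → ∀ z, Z z → ∀ z', Z z' → R x y z → R x y z' → z = z'
  cm : ∀ x, Z x → ∀ y, Z y → ∀ z, Z z → R x y z → R y x z
  as : ∀ x, Z x → ∀ y, Z y → ∀ z, Z z → ∀ u, Z u → ∀ v, Z v → ∀ s, Z s → R x y u → R u z s →
    R y z v → R x v s
  dv : ∀ x, Z x → ∀ z, Z z → ∃ y, Z y ∧ R x y z
  ml : ∀ x, Z x → ∀ y, Z y → (M x y ↔ Mul Z R e x y)

/-- the relation is the graph of a commutative group law, and `M` is the graph of the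
multiplication by `e + 1` -/
def IsGrp {X : Type*} (Z : X → Prop) (R : X → X → X → Prop) (M : X → X → Prop) (e : ℕ)
    (_ : AddCommGroup {x // Z x}) : Prop :=
  (∀ x y z : {x // Z x}, x + y = z ↔ R x.1 y.1 z.1) ∧
    ∀ x y : {x // Z x}, M x.1 y.1 ↔ (e + 1) • x = y

section

variable {X : Type*} {Z : X → Prop} {R : X → X → X → Prop} {M : X → X → Prop} {e : ℕ}

lemma mul_iff {g : AddCommGroup {x // Z x}} (hR : ∀ x y z : {x // Z x}, x + y = z ↔ R x.1 y.1 z.1)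
    (i : ℕ) (x y : {x // Z x}) : Mul Z R i x.1 y.1 ↔ (i + 1) • x = y := by
  induction i generalizing y with
  | zero =>
    rw [zero_add, one_smul]
    show y.1 = x.1 ↔ x = y
    exact ⟨fun h => Subtype.ext h.symm, fun h => by rw [h]⟩
  | succ i ih =>
    show (∃ u, Z u ∧ Mul Z R i x.1 u ∧ R u x.1 y.1) ↔ (i + 1 + 1) • x = y
    constructor
    · rintro ⟨u, hu, h1, h2⟩
      have h3 := (ih ⟨u, hu⟩).1 h1
      have h4 := (hR ⟨u, hu⟩ x y).2 h2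
      rw [add_smul, h3, one_smul, h4]
    · intro h
      refine ⟨((i + 1) • x).1, ((i + 1) • x).2, (ih _).2 rfl, (hR _ x y).1 ?_⟩
      rw [← h, add_smul (i + 1) 1 x, one_smul]

theorem ax_of_grp {g : AddCommGroup {x // Z x}} (h : IsGrp Z R M e g) : Ax Z R M e := by
  obtain ⟨hR, hM⟩ := h
  refine ⟨⟨(0 : {x // Z x}).1, (0 : {x // Z x}).2⟩, ?_, ?_, ?_, ?_, ?_, ?_⟩
  · intro x hx y hy
    exact ⟨((⟨x, hx⟩ : {x // Z x}) + ⟨y, hy⟩).1, Subtype.property _,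
      (hR ⟨x, hx⟩ ⟨y, hy⟩ _).1 rfl⟩
  · intro x hx y hy z hz z' hz' h1 h2
    have h3 := (hR ⟨x, hx⟩ ⟨y, hy⟩ ⟨z, hz⟩).2 h1
    have h4 := (hR ⟨x, hx⟩ ⟨y, hy⟩ ⟨z', hz'⟩).2 h2
    exact congrArg Subtype.val (h3.symm.trans h4)
  · intro x hx y hy z hz h1
    have h3 := (hR ⟨x, hx⟩ ⟨y, hy⟩ ⟨z, hz⟩).2 h1
    exact (hR ⟨y, hy⟩ ⟨x, hx⟩ ⟨z, hz⟩).1 (by rw [add_comm, h3])
  · intro x hx y hy z hz u hu v hv s hs h1 h2 h3
    have e1 := (hR ⟨x, hx⟩ ⟨y, hy⟩ ⟨u, hu⟩).2 h1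
    have e2 := (hR ⟨u, hu⟩ ⟨z, hz⟩ ⟨s, hs⟩).2 h2
    have e3 := (hR ⟨y, hy⟩ ⟨z, hz⟩ ⟨v, hv⟩).2 h3
    exact (hR ⟨x, hx⟩ ⟨v, hv⟩ ⟨s, hs⟩).1 (by rw [← e3, ← e2, ← e1, add_assoc])
  · intro x hx z hz
    refine ⟨((⟨z, hz⟩ : {x // Z x}) - ⟨x, hx⟩).1, Subtype.property _, ?_⟩
    exact (hR ⟨x, hx⟩ _ ⟨z, hz⟩).1 (by rw [add_sub_cancel])
  · intro x hx y hy
    rw [hM ⟨x, hx⟩ ⟨y, hy⟩]
    exact (mul_iff hR e ⟨x, hx⟩ ⟨y, hy⟩).symm

theorem grp_of_ax (h : Ax Z R M e) : ∃ g : AddCommGroup {x // Z x}, IsGrp Z R M e g := by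
  classical
  obtain ⟨⟨x0, hx0⟩, ex, un, cm, as, dv, ml⟩ := h
  have hadd : ∀ x y : {x // Z x}, ∃ z : {x // Z x}, R x.1 y.1 z.1 := by
    rintro ⟨x, hx⟩ ⟨y, hy⟩
    obtain ⟨z, hz, h1⟩ := ex x hx y hy
    exact ⟨⟨z, hz⟩, h1⟩
  choose ad had using hadd
  have key : ∀ x y z : {x // Z x}, ad x y = z ↔ R x.1 y.1 z.1 := by
    intro x y z
    constructor
    · rintro rfl
      exact had x y
    · intro h1
      exact Subtype.ext (un x.1 x.2 y.1 y.2 _ (ad x y).2 z.1 z.2 (had x y) h1)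
  have hcomm : ∀ x y, ad x y = ad y x := by
    intro x y
    rw [key]
    exact cm y.1 y.2 x.1 x.2 _ (ad y x).2 (had y x)
  have hassoc : ∀ x y z, ad (ad x y) z = ad x (ad y z) := by
    intro x y z
    have h1 := as x.1 x.2 y.1 y.2 z.1 z.2 _ (ad x y).2 _ (ad y z).2 _ (ad (ad x y) z).2
      (had x y) (had _ z) (had y z)
    exact ((key _ _ _).2 h1).symm
  have hdiv : ∀ x z : {x // Z x}, ∃ y : {x // Z x}, ad x y = z := by
    intro x z
    obtain ⟨y, hy, h1⟩ := dv x.1 x.2 z.1 z.2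
    exact ⟨⟨y, hy⟩, (key x ⟨y, hy⟩ z).2 h1⟩
  obtain ⟨o, ho⟩ := hdiv ⟨x0, hx0⟩ ⟨x0, hx0⟩
  have hzero : ∀ x, ad x o = x := by
    intro x
    obtain ⟨y, hy⟩ := hdiv ⟨x0, hx0⟩ x
    rw [← hy, hcomm ⟨x0, hx0⟩ y, hassoc, ho]
  choose dd hdd using hdiv
  let iA : Add {x // Z x} := ⟨ad⟩
  let iZ : Zero {x // Z x} := ⟨o⟩
  let iN : Neg {x // Z x} := ⟨fun x => dd x o⟩
  let g : AddCommGroup {x // Z x} :=
    { AddGroup.ofLeftAxioms (G := {x // Z x}) hassoc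
        (fun x => by
          show ad o x = x
          rw [hcomm, hzero])
        (fun x => by
          show ad (dd x o) x = o
          rw [hcomm, hdd]) with
      add_comm := hcomm }
  have hg : ∀ x y z : {x // Z x}, x + y = z ↔ R x.1 y.1 z.1 := key
  refine ⟨g, hg, ?_⟩
  intro x y
  rw [ml x.1 x.2 y.1 y.2]
  exact mul_iff hg e x y

end

section los

variable {α X Y : Type*} {U : Ultrafilter α} {Φ : (α → X) → Y} (hΦ : Function.Surjective Φ)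
  {Z : α → X → Prop} {R : α → X → X → X → Prop} {M : α → X → X → Prop}
  {ZU : Y → Prop} {RU : Y → Y → Y → Prop} {MU : Y → Y → Prop} {e : ℕ}
  (t0 : ∀ p q : α → X, Φ p = Φ q ↔ ∀ᶠ w in (U : Filter α), p w = q w)
  (t1 : ∀ p : α → X, ZU (Φ p) ↔ ∀ᶠ w in (U : Filter α), Z w (p w))
  (t2 : ∀ p q r : α → X, RU (Φ p) (Φ q) (Φ r) ↔ ∀ᶠ w in (U : Filter α), R w (p w) (q w) (r w))
  (t3 : ∀ p q : α → X, ZU (Φ p) → ZU (Φ q) →
    (MU (Φ p) (Φ q) ↔ ∀ᶠ w in (U : Filter α), M w (p w) (q w)))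

include hΦ t0 t1 t2 in
lemma mul_los (i : ℕ) (p q : α → X) :
    Mul ZU RU i (Φ p) (Φ q) ↔ ∀ᶠ w in (U : Filter α), Mul (Z w) (R w) i (p w) (q w) := by
  classical
  induction i generalizing q with
  | zero => exact t0 q p
  | succ i ih =>
    constructor
    · rintro ⟨u, hu, h1, h2⟩
      obtain ⟨r, rfl⟩ := hΦ u
      filter_upwards [(t1 r).1 hu, (ih r).1 h1, (t2 r p q).1 h2] with w a1 a2 a3
      exact ⟨r w, a1, a2, a3⟩
    · intro h
      have h' : ∀ w, ∃ u, Mul (Z w) (R w) (i + 1) (p w) (q w) →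
          Z w u ∧ Mul (Z w) (R w) i (p w) u ∧ R w u (p w) (q w) := by
        intro w
        by_cases hw : Mul (Z w) (R w) (i + 1) (p w) (q w)
        · obtain ⟨u, hu⟩ := hw
          exact ⟨u, fun _ => hu⟩
        · exact ⟨p w, fun h => absurd h hw⟩
      choose r hr using h'
      refine ⟨Φ r, (t1 r).2 ?_, (ih r).2 ?_, (t2 r p q).2 ?_⟩
      · exact h.mono fun w hw => (hr w hw).1
      · exact h.mono fun w hw => (hr w hw).2.1
      · exact h.mono fun w hw => (hr w hw).2.2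

include hΦ t0 t1 t2 t3 in
/-- **the axioms hold for almost all factors** -/
theorem ax_los (h : Ax ZU RU MU e) : ∀ᶠ w in (U : Filter α), Ax (Z w) (R w) (M w) e := by
  classical
  obtain ⟨⟨y0, hy0⟩, ex, un, cm, as, dv, ml⟩ := h
  obtain ⟨p0, rfl⟩ := hΦ y0
  have b1 : ∀ᶠ w in (U : Filter α), ∃ x, Z w x :=
    ((t1 p0).1 hy0).mono fun w hw => ⟨p0 w, hw⟩
  have b2 : ∀ᶠ w in (U : Filter α), ∀ x, Z w x → ∀ y, Z w y → ∃ z, Z w z ∧ R w x y z := by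
    by_contra hcon
    have h1 := Ultrafilter.eventually_not.2 hcon
    have h2 : ∀ w, ∃ x y, (¬ ∀ x, Z w x → ∀ y, Z w y → ∃ z, Z w z ∧ R w x y z) →
        Z w x ∧ Z w y ∧ ¬ ∃ z, Z w z ∧ R w x y z := by
      intro w
      by_cases hw : ∀ x, Z w x → ∀ y, Z w y → ∃ z, Z w z ∧ R w x y z
      · exact ⟨p0 w, p0 w, fun h => absurd hw h⟩
      · have hw' := hw
        push Not at hw'
        obtain ⟨x, hx, y, hy, h3⟩ := hw'
        refine ⟨x, y, fun _ => ⟨hx, hy, ?_⟩⟩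
        push Not
        exact h3
    choose x y hxy using h2
    obtain ⟨z, hz, h3⟩ := ex (Φ x) ((t1 x).2 (h1.mono fun w hw => (hxy w hw).1)) (Φ y)
      ((t1 y).2 (h1.mono fun w hw => (hxy w hw).2.1))
    obtain ⟨r, rfl⟩ := hΦ z
    obtain ⟨w, hw1, hw2, hw3⟩ := (h1.and (((t1 r).1 hz).and ((t2 x y r).1 h3))).exists
    exact (hxy w hw1).2.2 ⟨r w, hw2, hw3⟩
  have b3 : ∀ᶠ w in (U : Filter α), ∀ x, Z w x → ∀ y, Z w y → ∀ z, Z w z → ∀ z', Z w z' →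
      R w x y z → R w x y z' → z = z' := by
    by_contra hcon
    have h1 := Ultrafilter.eventually_not.2 hcon
    have h2 : ∀ w, ∃ x y z z', (¬ ∀ x, Z w x → ∀ y, Z w y → ∀ z, Z w z → ∀ z', Z w z' →
        R w x y z → R w x y z' → z = z') →
        Z w x ∧ Z w y ∧ Z w z ∧ Z w z' ∧ R w x y z ∧ R w x y z' ∧ z ≠ z' := by
      intro w
      by_cases hw : ∀ x, Z w x → ∀ y, Z w y → ∀ z, Z w z → ∀ z', Z w z' →
        R w x y z → R w x y z' → z = z'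
      · exact ⟨p0 w, p0 w, p0 w, p0 w, fun h => absurd hw h⟩
      · have hw' := hw
        push Not at hw'
        obtain ⟨x, hx, y, hy, z, hz, z', hz', h3, h4, h5⟩ := hw'
        exact ⟨x, y, z, z', fun _ => ⟨hx, hy, hz, hz', h3, h4, h5⟩⟩
    choose x y z z' hxy using h2
    have h3 := un (Φ x) ((t1 x).2 (h1.mono fun w hw => (hxy w hw).1)) (Φ y)
      ((t1 y).2 (h1.mono fun w hw => (hxy w hw).2.1)) (Φ z)
      ((t1 z).2 (h1.mono fun w hw => (hxy w hw).2.2.1)) (Φ z')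
      ((t1 z').2 (h1.mono fun w hw => (hxy w hw).2.2.2.1))
      ((t2 x y z).2 (h1.mono fun w hw => (hxy w hw).2.2.2.2.1))
      ((t2 x y z').2 (h1.mono fun w hw => (hxy w hw).2.2.2.2.2.1))
    obtain ⟨w, hw1, hw2⟩ := (h1.and ((t0 z z').1 h3)).exists
    exact (hxy w hw1).2.2.2.2.2.2 hw2
  have b4 : ∀ᶠ w in (U : Filter α), ∀ x, Z w x → ∀ y, Z w y → ∀ z, Z w z → R w x y z →
      R w y x z := by
    by_contra hcon
    have h1 := Ultrafilter.eventually_not.2 hcon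
    have h2 : ∀ w, ∃ x y z, (¬ ∀ x, Z w x → ∀ y, Z w y → ∀ z, Z w z → R w x y z →
        R w y x z) → Z w x ∧ Z w y ∧ Z w z ∧ R w x y z ∧ ¬ R w y x z := by
      intro w
      by_cases hw : ∀ x, Z w x → ∀ y, Z w y → ∀ z, Z w z → R w x y z → R w y x z
      · exact ⟨p0 w, p0 w, p0 w, fun h => absurd hw h⟩
      · have hw' := hw
        push Not at hw'
        obtain ⟨x, hx, y, hy, z, hz, h3, h4⟩ := hw'
        exact ⟨x, y, z, fun _ => ⟨hx, hy, hz, h3, h4⟩⟩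
    choose x y z hxy using h2
    have h3 := cm (Φ x) ((t1 x).2 (h1.mono fun w hw => (hxy w hw).1)) (Φ y)
      ((t1 y).2 (h1.mono fun w hw => (hxy w hw).2.1)) (Φ z)
      ((t1 z).2 (h1.mono fun w hw => (hxy w hw).2.2.1))
      ((t2 x y z).2 (h1.mono fun w hw => (hxy w hw).2.2.2.1))
    obtain ⟨w, hw1, hw2⟩ := (h1.and ((t2 y x z).1 h3)).exists
    exact (hxy w hw1).2.2.2.2 hw2
  have b5 : ∀ᶠ w in (U : Filter α), ∀ x, Z w x → ∀ y, Z w y → ∀ z, Z w z → ∀ u, Z w u →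
      ∀ v, Z w v → ∀ s, Z w s → R w x y u → R w u z s → R w y z v → R w x v s := by
    by_contra hcon
    have h1 := Ultrafilter.eventually_not.2 hcon
    have h2 : ∀ w, ∃ x y z u v s, (¬ ∀ x, Z w x → ∀ y, Z w y → ∀ z, Z w z → ∀ u, Z w u →
        ∀ v, Z w v → ∀ s, Z w s → R w x y u → R w u z s → R w y z v → R w x v s) →
        Z w x ∧ Z w y ∧ Z w z ∧ Z w u ∧ Z w v ∧ Z w s ∧ R w x y u ∧ R w u z s ∧ R w y z v ∧
        ¬ R w x v s := by
      intro w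
      by_cases hw : ∀ x, Z w x → ∀ y, Z w y → ∀ z, Z w z → ∀ u, Z w u →
        ∀ v, Z w v → ∀ s, Z w s → R w x y u → R w u z s → R w y z v → R w x v s
      · exact ⟨p0 w, p0 w, p0 w, p0 w, p0 w, p0 w, fun h => absurd hw h⟩
      · have hw' := hw
        push Not at hw'
        obtain ⟨x, hx, y, hy, z, hz, u, hu, v, hv, s, hs, h3, h4, h5, h6⟩ := hw'
        exact ⟨x, y, z, u, v, s, fun _ => ⟨hx, hy, hz, hu, hv, hs, h3, h4, h5, h6⟩⟩
    choose x y z u v s hxy using h2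
    have h3 := as (Φ x) ((t1 x).2 (h1.mono fun w hw => (hxy w hw).1)) (Φ y)
      ((t1 y).2 (h1.mono fun w hw => (hxy w hw).2.1)) (Φ z)
      ((t1 z).2 (h1.mono fun w hw => (hxy w hw).2.2.1)) (Φ u)
      ((t1 u).2 (h1.mono fun w hw => (hxy w hw).2.2.2.1)) (Φ v)
      ((t1 v).2 (h1.mono fun w hw => (hxy w hw).2.2.2.2.1)) (Φ s)
      ((t1 s).2 (h1.mono fun w hw => (hxy w hw).2.2.2.2.2.1))
      ((t2 x y u).2 (h1.mono fun w hw => (hxy w hw).2.2.2.2.2.2.1))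
      ((t2 u z s).2 (h1.mono fun w hw => (hxy w hw).2.2.2.2.2.2.2.1))
      ((t2 y z v).2 (h1.mono fun w hw => (hxy w hw).2.2.2.2.2.2.2.2.1))
    obtain ⟨w, hw1, hw2⟩ := (h1.and ((t2 x v s).1 h3)).exists
    exact (hxy w hw1).2.2.2.2.2.2.2.2.2 hw2
  have b6 : ∀ᶠ w in (U : Filter α), ∀ x, Z w x → ∀ z, Z w z → ∃ y, Z w y ∧ R w x y z := by
    by_contra hcon
    have h1 := Ultrafilter.eventually_not.2 hcon
    have h2 : ∀ w, ∃ x z, (¬ ∀ x, Z w x → ∀ z, Z w z → ∃ y, Z w y ∧ R w x y z) →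
        Z w x ∧ Z w z ∧ ¬ ∃ y, Z w y ∧ R w x y z := by
      intro w
      by_cases hw : ∀ x, Z w x → ∀ z, Z w z → ∃ y, Z w y ∧ R w x y z
      · exact ⟨p0 w, p0 w, fun h => absurd hw h⟩
      · have hw' := hw
        push Not at hw'
        obtain ⟨x, hx, z, hz, h3⟩ := hw'
        refine ⟨x, z, fun _ => ⟨hx, hz, ?_⟩⟩
        push Not
        exact h3
    choose x z hxz using h2
    obtain ⟨y, hy, h3⟩ := dv (Φ x) ((t1 x).2 (h1.mono fun w hw => (hxz w hw).1)) (Φ z)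
      ((t1 z).2 (h1.mono fun w hw => (hxz w hw).2.1))
    obtain ⟨r, rfl⟩ := hΦ y
    obtain ⟨w, hw1, hw2, hw3⟩ := (h1.and (((t1 r).1 hy).and ((t2 x r z).1 h3))).exists
    exact (hxz w hw1).2.2 ⟨r w, hw2, hw3⟩
  have b7 : ∀ᶠ w in (U : Filter α), ∀ x, Z w x → ∀ y, Z w y →
      (M w x y ↔ Mul (Z w) (R w) e x y) := by
    by_contra hcon
    have h1 := Ultrafilter.eventually_not.2 hcon
    have h2 : ∀ w, ∃ x y, (¬ ∀ x, Z w x → ∀ y, Z w y → (M w x y ↔ Mul (Z w) (R w) e x y)) →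
        Z w x ∧ Z w y ∧ ¬ (M w x y ↔ Mul (Z w) (R w) e x y) := by
      intro w
      by_cases hw : ∀ x, Z w x → ∀ y, Z w y → (M w x y ↔ Mul (Z w) (R w) e x y)
      · exact ⟨p0 w, p0 w, fun h => absurd hw h⟩
      · have hw' := hw
        rw [not_forall] at hw'
        obtain ⟨x, hx'⟩ := hw'
        rw [not_forall] at hx'
        obtain ⟨hx, h3⟩ := hx'
        rw [not_forall] at h3
        obtain ⟨y, h4⟩ := h3
        rw [not_forall] at h4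
        obtain ⟨hy, h5⟩ := h4
        exact ⟨x, y, fun _ => ⟨hx, hy, h5⟩⟩
    choose x y hxy using h2
    have hx := (t1 x).2 (h1.mono fun w hw => (hxy w hw).1)
    have hy := (t1 y).2 (h1.mono fun w hw => (hxy w hw).2.1)
    have h3 := ml (Φ x) hx (Φ y) hy
    rw [t3 x y hx hy, mul_los hΦ t0 t1 t2] at h3
    by_cases h4 : ∀ᶠ w in (U : Filter α), M w (x w) (y w)
    · obtain ⟨w, hw1, hw2, hw3⟩ := (h1.and (h4.and (h3.1 h4))).exists
      exact (hxy w hw1).2.2 ⟨fun _ => hw3, fun _ => hw2⟩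
    · have h5 := Ultrafilter.eventually_not.2 h4
      have h6 := Ultrafilter.eventually_not.2 fun h => h4 (h3.2 h)
      obtain ⟨w, hw1, hw2, hw3⟩ := (h1.and (h5.and h6)).exists
      exact (hxy w hw1).2.2 ⟨fun h => absurd h hw2, fun h => absurd h hw3⟩
  filter_upwards [b1, b2, b3, b4, b5, b6, b7] with w c1 c2 c3 c4 c5 c6 c7
  exact ⟨c1, c2, c3, c4, c5, c6, c7⟩

end los

end Pool.Agent.N455.AV
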