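import Pool.Agent.N455.AV.Bij
set_option autoImplicit false
set_option linter.unusedSectionVars false

/-! The preperiodic points of bounded degree of 100% of the members, with all closed relations
(helper455). -/

namespace Pool.Agent.N455.AV
open Pool.Agent.Y706
open Pool.Agent.N455

open MvPolynomial Pool.Agent.H936R2 Pool.Agent.H927R2.RD H294UB Pool.Agent.W275.UB
  Pool.Agent.W193.UB Pool.Agent.W554.UB NumberField LinearAlgebra.Projectivization Filter

section

variable {k : Type} [Field k] [NumberField k] {J : Type} [Fintype J] {m : ℕ}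
  [TX.Sm (Fin (m + 1) × J)] (ω : Module.Basis J ℤ (𝓞 k))

/-- the number of the preperiodic points -/
theorem count {N d s B : ℕ} (hd : 2 ≤ d) (v : Idx (N + 1) d → MvPolynomial (Fin m) k)
    (hM : MonIn s (sy fun i => algebraMap (MvPolynomial (Fin m) k)
      (FractionRing (MvPolynomial (Fin m) k)) (v i))) :
    (preP (sy fun i => algebraMap (MvPolynomial (Fin m) k)
      (FractionRing (MvPolynomial (Fin m) k)) (v i)) B).Finite ∧
    TX.D0 {w : Fin (m + 1) × J → ℤ | ¬ (vec ω w 0 ≠ 0 ∧
      (∃ s, MonIn s (sy fun i => eval (tp ω w) (v i))) ∧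
      (preP (sy fun i => eval (tp ω w) (v i)) B).encard =
      (preP (sy fun i => algebraMap (MvPolynomial (Fin m) k)
        (FractionRing (MvPolynomial (Fin m) k)) (v i)) B).encard)} := by
  classical
  obtain ⟨C, hC⟩ := np_RF (k := k) m N d s _ hd hM B
  have hfew := hC (AlgebraicClosure (FractionRing (MvPolynomial (Fin m) k)))
  have hle := (few_iff hM B C).1 hfew
  have hfin : (preP (sy fun i => algebraMap (MvPolynomial (Fin m) k)
      (FractionRing (MvPolynomial (Fin m) k)) (v i)) B).Finite :=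
    Set.encard_lt_top_iff.1 (hle.trans_lt (ENat.natCast_lt_top C))
  obtain ⟨n, hn⟩ : ∃ n : ℕ, (preP (sy fun i => algebraMap (MvPolynomial (Fin m) k)
      (FractionRing (MvPolynomial (Fin m) k)) (v i)) B).encard = (n : ℕ∞) :=
    ⟨_, hfin.encard_eq_coe_toFinset_card⟩
  refine ⟨hfin, ?_⟩
  have hup := (few_iff hM B n).2 hn.le
  have h3 := TX.paramB ω (AlgebraicClosure k) hd v hM hup
  have h4 : TX.D0 {w : Fin (m + 1) × J → ℤ | 1 ≤ n ∧
      FewB (AlgebraicClosure k) B (n - 1) (fun i => eval (tp ω w) (v i))} := by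
    by_cases hn1 : 1 ≤ n
    · have h5 : ¬ FewB (AlgebraicClosure (FractionRing (MvPolynomial (Fin m) k))) B (n - 1)
          (fun i => algebraMap (MvPolynomial (Fin m) k)
            (FractionRing (MvPolynomial (Fin m) k)) (v i)) := by
        intro h6
        have h7 := (few_iff hM B (n - 1)).1 h6
        rw [hn] at h7
        have h8 : n ≤ n - 1 := by exact_mod_cast h7
        omega
      have h6 := TX.lowerParam ω (AlgebraicClosure k) v h5
      exact h6.mono fun w hw => hw.2
    · exact TX.D0.empty.mono fun w hw => absurd hw.1 hn1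
  refine (h3.union h4).mono ?_
  intro w hw
  by_contra hcon
  rw [Set.mem_union, not_or] at hcon
  obtain ⟨hcon1, hcon2⟩ := hcon
  apply hw
  have hcon1' : vec ω w 0 ≠ 0 ∧ (∃ s, MonIn s (sy fun i => eval (tp ω w) (v i))) ∧
      FewB (AlgebraicClosure k) B n (fun i => eval (tp ω w) (v i)) := by
    by_contra h5
    exact hcon1 h5
  obtain ⟨g1, ⟨s', g2⟩, g3⟩ := hcon1'
  have g4 : ¬ (1 ≤ n ∧ FewB (AlgebraicClosure k) B (n - 1) (fun i => eval (tp ω w) (v i))) := hcon2
  refine ⟨g1, ⟨s', g2⟩, ?_⟩
  rw [hn]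
  apply le_antisymm
  · exact (few_iff g2 B n).1 g3
  · by_contra hlt
    push Not at hlt
    apply g4
    have hn1 : 1 ≤ n := by
      by_contra h0
      have h1 : n = 0 := by omega
      rw [h1] at hlt
      simp at hlt
    refine ⟨hn1, (few_iff g2 B (n - 1)).2 ?_⟩
    have h5 : ((n - 1 : ℕ) : ℕ∞) + 1 = (n : ℕ∞) := by
      norm_cast
      omega
    rw [← h5] at hlt
    exact Order.le_of_lt_add_one hlt

/-- **The preperiodic points of bounded degree with closed relations.** -/
theorem main {N d : ℕ} (hd : 2 ≤ d)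
    (F : Fin (N + 1) → MvPolynomial (Fin (N + 1)) (MvPolynomial (Fin m) k))
    (hF : ∀ i, (F i).IsHomogeneous d)
    (hmor : MorP fun i => (F i).map (algebraMap (MvPolynomial (Fin m) k)
      (FractionRing (MvPolynomial (Fin m) k)))) (B : ℕ) {q : ℕ} (a : Fin q → ℕ)
    (G : ∀ j, MvPolynomial (Fin (a j) × Fin (N + 1)) (MvPolynomial (Fin m) k))
    (hG : ∀ j, Multi (G j)) :
    (preP (fun i => (F i).map (algebraMap (MvPolynomial (Fin m) k)
      (FractionRing (MvPolynomial (Fin m) k)))) B).Finite ∧
    TX.D0 {w : Fin (m + 1) × J → ℤ | ¬ (vec ω w 0 ≠ 0 ∧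
      MorP (fun i => (F i).map (MvPolynomial.eval (tp ω w))) ∧
      ∃ φ : (preP (fun i => (F i).map (algebraMap (MvPolynomial (Fin m) k)
        (FractionRing (MvPolynomial (Fin m) k)))) B) ≃
        (preP (fun i => (F i).map (MvPolynomial.eval (tp ω w))) B),
        ∀ j, ∀ p : Fin (a j) → (preP (fun i => (F i).map (algebraMap (MvPolynomial (Fin m) k)
          (FractionRing (MvPolynomial (Fin m) k)))) B),
          Van ((G j).map (algebraMap (MvPolynomial (Fin m) k)
            (FractionRing (MvPolynomial (Fin m) k)))) (fun i => (p i).1) ↔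
          Van ((G j).map (MvPolynomial.eval (tp ω w))) (fun i => (φ (p i)).1))} := by
  classical
  set v : Idx (N + 1) d → MvPolynomial (Fin m) k := fun i => coeff (expo i.2) (F i.1) with hv
  have hFv : F = sy v := by
    funext i
    exact (form_coeff (hF i)).symm
  have hmap : ∀ {S : Type} [CommRing S] (φ : MvPolynomial (Fin m) k →+* S),
      (fun i => (F i).map φ) = sy fun i => φ (v i) := by
    intro S _ φ
    rw [hFv]
    exact Pool.Agent.W193.UB.map_sy φ v
  rw [hmap] at hmor ⊢
  -- the generic member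
  obtain ⟨s, c, hc, hMC⟩ := exists_monC (algebraMap (FractionRing (MvPolynomial (Fin m) k))
    (AlgebraicClosure (FractionRing (MvPolynomial (Fin m) k))))
    (fun i => algebraMap (MvPolynomial (Fin m) k)
      (FractionRing (MvPolynomial (Fin m) k)) (v i)) (by
      intro x hx
      apply hmor x
      intro i
      have h1 := hx i
      rw [← Pool.Agent.W193.UB.map_sy, eval_map] at h1
      rw [aeval_def]
      exact h1)
  have hc0 : c ≠ 0 := by
    rintro rfl
    exact hc (map_zero _)
  have hM : MonIn s (sy fun i => algebraMap (MvPolynomial (Fin m) k)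
      (FractionRing (MvPolynomial (Fin m) k)) (v i)) := hMC.monIn (isUnit_iff_ne_zero.2 hc0)
  obtain ⟨hfin, hD⟩ := count ω (B := B) hd v hM
  refine ⟨hfin, ?_⟩
  by_contra hcon
  obtain ⟨U, hU, hUG⟩ := TX.exu (Fin (m + 1) × J) _ hcon
  have hUD := hU _ hD
  let iO : Algebra (FractionRing (MvPolynomial (Fin m) k)) (UP U (AlgebraicClosure k)) :=
    ((jU (kb := AlgebraicClosure k) U).comp (psP ω hU)).toAlgebra
  have hac : IsAlgClosed (UP U (AlgebraicClosure k)) := up_closed
  let τ : AlgebraicClosure (FractionRing (MvPolynomial (Fin m) k))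
    →ₐ[FractionRing (MvPolynomial (Fin m) k)] UP U (AlgebraicClosure k) := IsAlgClosed.lift
  have h0 : ∀ᶠ w in (U : Filter (Fin (m + 1) × J → ℤ)), vec ω w 0 ≠ 0 ∧
      (∃ s, MonIn s (sy fun i => eval (tp ω w) (v i))) ∧
      (preP (sy fun i => eval (tp ω w) (v i)) B).encard =
      (preP (sy fun i => algebraMap (MvPolynomial (Fin m) k)
        (FractionRing (MvPolynomial (Fin m) k)) (v i)) B).encard := by
    refine Filter.mem_of_superset hUD ?_
    intro w hw
    by_contra h1
    exact hw h1
  have h1 := bij (psP ω hU) (τ : _ →+* UP U (AlgebraicClosure k)) (fun c => τ.commutes c)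
    (fun w => MvPolynomial.eval (tp ω w)) (psP_algebraMap ω hU) hM hfin
    (h0.mono fun w hw => hw.2) a G hG
  obtain ⟨w, hw1, hw2, hw3⟩ := (h1.and (h0.and (Filter.eventually_iff.2 hUG))).exists
  apply hw3
  rw [hmap]
  obtain ⟨g1, ⟨s', g2⟩, g3⟩ := hw2
  refine ⟨g1, ?_, hw1⟩
  intro x hx
  have g5 : MonIn s' (sy fun i => algebraMap k (AlgebraicClosure k) (eval (tp ω w) (v i))) :=
    monIn_map (algebraMap k (AlgebraicClosure k)) g2
  apply no_zero _ g5 x
  intro i
  have h1 := hx i
  rw [aeval_def] at h1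
  rw [← Pool.Agent.W193.UB.map_sy, eval_map]
  exact h1

end

end Pool.Agent.N455.AV
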