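import Pool.Agent.N455.AV.Main
import Pool.Agent.N938.TD.All5
import Pool.Agent.N455.TX.Univ
set_option autoImplicit false
set_option linter.unusedSectionVars false

/-! One null set for all families, over all number fields (helper455). -/

namespace Pool.Agent.N455.AV
open Pool.Agent.Y706 (MorP preP vec tp)
open Pool.Agent.N455
open Pool.Agent.N666.TM Pool.Agent.N455.TX Pool.Agent.N455.HT
open Pool.Agent.N938.TD (EquiA nf_countable field_countable basis_countable mv_countable vec_eq)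

open MvPolynomial NumberField LinearAlgebra.Projectivization Filter

/-- One null set along an equidistributed array for countably many sets of vectors of density zero. -/
theorem one_set {x : ℕ → ℕ → ℕ → ℤ} {S₁ S₂ : ℕ → Finset ℕ}
    (hS₁ : ∀ N, S₁ N ⊆ Finset.Ioc N (2 * N)) (hS₂ : ∀ N, S₂ N ⊆ Finset.Ioc N (2 * N))
    (h₁ : EquiA S₁ x) (h₂ : EquiA S₂ x) {I : Type*} [Countable I] (r m : I → ℕ)
    (A : ∀ i, Set (Fin (m i + 1) × Fin (r i) → ℤ))
    (hA : ∀ i : I, @TX.D0 (Fin (m i + 1) × Fin (r i)) smU (A i)) :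
    ∃ E : Set ℕ, NullIn S₁ E ∧ NullIn S₂ E ∧
      ∀ i, {t : ℕ | t ∉ E ∧ (fun q : Fin (m i + 1) × Fin (r i) => x q.1 q.2 t) ∈ A i}.Finite := by
  classical
  have key : ∀ (S : ℕ → Finset ℕ), EquiA S x → ∀ i, NullIn S {t : ℕ |
        (fun q : Fin (m i + 1) × Fin (r i) => x q.1 q.2 t) ∈ A i} := by
    intro S hS i
    have h1 := hS.part (ι := Fin (m i + 1) × Fin (r i)) (fun q => ((q.1 : ℕ), (q.2 : ℕ))) (by
      intro q q' hqq
      simp only [Prod.mk.injEq] at hqq
      exact Prod.ext (Fin.ext hqq.1) (Fin.ext hqq.2))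
    exact nullIn_of_D0 (hA i) (WS.of_equi h1)
  exact Pool.Agent.N938.TD.diagC hS₁ hS₂ (key S₁ h₁) (key S₂ h₂)

theorem mvt_countable (σ : Type) [Countable σ] (R : Type) [CommRing R] [Countable R] :
    Countable (MvPolynomial σ R) := by
  rw [← Cardinal.mk_le_aleph0_iff]
  refine (MvPolynomial.cardinalMk_le_max_lift (σ := σ) (R := R)).trans ?_
  simp

/-- a family of endomorphisms of projective space with forms in groups of variables -/
structure Fam where
  k : Subfield ℂ
  hk : NumberField k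
  r : ℕ
  N : ℕ
  d : ℕ
  m : ℕ
  B : ℕ
  q : ℕ
  ω : Module.Basis (Fin r) ℤ (𝓞 k)
  F : Fin (N + 1) → MvPolynomial (Fin (N + 1)) (MvPolynomial (Fin m) k)
  a : Fin q → ℕ
  G : ∀ j, MvPolynomial (Fin (a j) × Fin (N + 1)) (MvPolynomial (Fin m) k)
  hd : 2 ≤ d
  hF : ∀ i, (F i).IsHomogeneous d
  hmor : MorP fun i => (F i).map (algebraMap (MvPolynomial (Fin m) k)
      (FractionRing (MvPolynomial (Fin m) k)))
  hG : ∀ j, Multi (G j)

attribute [local instance] Fam.hk

theorem fam_countable : Countable Fam := by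
  have h1 : Countable {k : Subfield ℂ // NumberField k} := nf_countable
  have h2 : ∀ k : {k : Subfield ℂ // NumberField k}, Countable k.1 := fun k => by
    have := k.2
    exact field_countable k.1
  have h3 : ∀ (k : {k : Subfield ℂ // NumberField k}) (r : ℕ),
      Countable (Module.Basis (Fin r) ℤ (𝓞 k.1)) := fun k r => basis_countable k.1 r
  have h4 : ∀ (k : {k : Subfield ℂ // NumberField k}) (n m : ℕ),
      Countable (MvPolynomial (Fin n) (MvPolynomial (Fin m) k.1)) := fun k n m => by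
    have := mv_countable m k.1
    exact mv_countable n _
  have h5 : ∀ (k : {k : Subfield ℂ // NumberField k}) (a n m : ℕ),
      Countable (MvPolynomial (Fin a × Fin n) (MvPolynomial (Fin m) k.1)) := fun k a n m => by
    have := mv_countable m k.1
    exact mvt_countable _ _
  have h6 : ∀ (k : {k : Subfield ℂ // NumberField k}) (n m q : ℕ) (a : Fin q → ℕ),
      Countable (∀ j, MvPolynomial (Fin (a j) × Fin n) (MvPolynomial (Fin m) k.1)) :=
    fun k n m q a => by
      have := fun j => h5 k (a j) n m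
      infer_instance
  have h7 : ∀ q : ℕ, Countable (Fin q → ℕ) := fun q => inferInstance
  have h8 : ∀ (k : {k : Subfield ℂ // NumberField k}) (r N m q : ℕ) (a : Fin q → ℕ),
      Countable (Module.Basis (Fin r) ℤ (𝓞 k.1) ×
      (Fin (N + 1) → MvPolynomial (Fin (N + 1)) (MvPolynomial (Fin m) k.1)) ×
      (∀ j, MvPolynomial (Fin (a j) × Fin (N + 1)) (MvPolynomial (Fin m) k.1))) :=
    fun k r N m q a => by
      have e1 := h3 k r
      have e2 := h4 k (N + 1) m
      have e3 := h6 k (N + 1) m q a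
      infer_instance
  refine Function.Injective.countable (β := Σ (k : {k : Subfield ℂ // NumberField k}) (r : ℕ)
    (N : ℕ) (_ : ℕ) (m : ℕ) (_ : ℕ) (q : ℕ) (a : Fin q → ℕ), Module.Basis (Fin r) ℤ (𝓞 k.1) ×
      (Fin (N + 1) → MvPolynomial (Fin (N + 1)) (MvPolynomial (Fin m) k.1)) ×
      (∀ j, MvPolynomial (Fin (a j) × Fin (N + 1)) (MvPolynomial (Fin m) k.1)))
    (f := fun f => ⟨⟨f.k, f.hk⟩, f.r, f.N, f.d, f.m, f.B, f.q, f.a, f.ω, f.F, f.G⟩) ?_
  rintro ⟨k, hk, r, N, d, m, B, q, ω, F, a, G, hd, hF, hmor, hG⟩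
    ⟨k', hk', r', N', d', m', B', q', ω', F', a', G', hd', hF', hmor', hG'⟩ h
  cases h
  rfl

/-- the member is good -/
def Good {k : Type} [Field k] [NumberField k] {N m q : ℕ}
    (F : Fin (N + 1) → MvPolynomial (Fin (N + 1)) (MvPolynomial (Fin m) k)) (B : ℕ)
    (a : Fin q → ℕ) (G : ∀ j, MvPolynomial (Fin (a j) × Fin (N + 1)) (MvPolynomial (Fin m) k))
    (v : Fin (m + 1) → 𝓞 k) : Prop :=
  v 0 ≠ 0 ∧
    MorP (fun i => (F i).map (MvPolynomial.eval fun l : Fin m =>
      algebraMap (𝓞 k) k (v l.succ) / algebraMap (𝓞 k) k (v 0))) ∧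
    ∃ φ : (preP (fun i => (F i).map (algebraMap (MvPolynomial (Fin m) k)
      (FractionRing (MvPolynomial (Fin m) k)))) B) ≃
      (preP (fun i => (F i).map (MvPolynomial.eval fun l : Fin m =>
        algebraMap (𝓞 k) k (v l.succ) / algebraMap (𝓞 k) k (v 0))) B),
      ∀ j, ∀ p : Fin (a j) → (preP (fun i => (F i).map (algebraMap (MvPolynomial (Fin m) k)
        (FractionRing (MvPolynomial (Fin m) k)))) B),
        Van ((G j).map (algebraMap (MvPolynomial (Fin m) k)
          (FractionRing (MvPolynomial (Fin m) k)))) (fun i => (p i).1) ↔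
        Van ((G j).map (MvPolynomial.eval fun l : Fin m =>
          algebraMap (𝓞 k) k (v l.succ) / algebraMap (𝓞 k) k (v 0))) (fun i => (φ (p i)).1)

/-- **All families of endomorphisms of projective spaces over all number fields along an
equidistributed array: the preperiodic points of bounded degree with all closed relations.** -/
theorem all {x : ℕ → ℕ → ℕ → ℤ} {S₁ S₂ : ℕ → Finset ℕ}
    (hS₁ : ∀ N, S₁ N ⊆ Finset.Ioc N (2 * N)) (hS₂ : ∀ N, S₂ N ⊆ Finset.Ioc N (2 * N))
    (h₁ : EquiA S₁ x) (h₂ : EquiA S₂ x) :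
    ∃ E : Set ℕ, NullIn S₁ E ∧ NullIn S₂ E ∧
      ∀ (k : Subfield ℂ) [NumberField k] (r : ℕ) (ω : Module.Basis (Fin r) ℤ (𝓞 k)) (N d : ℕ),
        2 ≤ d → ∀ (m : ℕ) (F : Fin (N + 1) → MvPolynomial (Fin (N + 1)) (MvPolynomial (Fin m) k)),
        (∀ i, (F i).IsHomogeneous d) → (MorP fun i => (F i).map
          (algebraMap (MvPolynomial (Fin m) k) (FractionRing (MvPolynomial (Fin m) k)))) →
        ∀ B : ℕ,
          (preP (fun i => (F i).map (algebraMap (MvPolynomial (Fin m) k)
            (FractionRing (MvPolynomial (Fin m) k)))) B).Finite ∧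
          ∀ (q : ℕ) (a : Fin q → ℕ)
            (G : ∀ j, MvPolynomial (Fin (a j) × Fin (N + 1)) (MvPolynomial (Fin m) k)),
            (∀ j, Multi (G j)) →
            {t : ℕ | t ∉ E ∧ ¬ Good F B a G
              (fun l : Fin (m + 1) => ∑ j : Fin r, x l j t • ω j)}.Finite := by
  have := fam_countable
  have hbad : ∀ f : Fam, @TX.D0 (Fin (f.m + 1) × Fin f.r) smU
      {w | ¬ Good f.F f.B f.a f.G (vec f.ω w)} := by
    intro f
    have := f.hk
    let : Sm (Fin (f.m + 1) × Fin f.r) := smU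
    exact (main f.ω f.hd f.F f.hF f.hmor f.B f.a f.G f.hG).2
  obtain ⟨E, h1, h2, h3⟩ := one_set hS₁ hS₂ h₁ h₂ (I := Fam) (fun f => f.r) (fun f => f.m) _ hbad
  refine ⟨E, h1, h2, ?_⟩
  intro k hk r ω N d hd m F hF hmor B
  refine ⟨?_, ?_⟩
  · let : Sm (Fin (m + 1) × Fin r) := smU
    exact (main ω hd F hF hmor B (q := 0) (fun j => 0) (fun j => 0) (fun j => j.elim0)).1
  · intro q a G hG
    refine (h3 ⟨k, hk, r, N, d, m, B, q, ω, F, a, G, hd, hF, hmor, hG⟩).subset ?_
    rintro t ⟨htE, ht⟩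
    refine ⟨htE, ?_⟩
    have h4 : vec ω (fun q : Fin (m + 1) × Fin r => x q.1 q.2 t) = _ := vec_eq ω _
    show ¬ Good F B a G (vec ω fun q : Fin (m + 1) × Fin r => x q.1 q.2 t)
    rw [h4]
    exact ht

end Pool.Agent.N455.AV
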