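import Pool.Agent.N455.AV.Gal
set_option autoImplicit false
set_option linter.unusedSectionVars false

/-! The orders of the torsion points (helper455). -/

namespace Pool.Agent.N455.AV
open Pool.Agent.Y706 (MorP preP vec tp imgP degP orbP)
open Pool.Agent.N455
open Pool.Agent.N666.TM Pool.Agent.N455.TX Pool.Agent.N455.HT
open Pool.Agent.N938.TD (EquiA)

open MvPolynomial NumberField LinearAlgebra.Projectivization Filter

section

variable {K : Type} [Field K] [CharZero K] {n q s : ℕ} {A : Fin q → MvPolynomial (Fin n) K}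
  (hA : ∀ j, ∃ e, (A j).IsHomogeneous e)
  {F : Fin n → MvPolynomial (Fin n) K} {H : Fin s → MvPolynomial (Fin 3 × Fin n) K}
  (hH : ∀ j, Multi (H j)) (g : AddCommGroup (Pts A)) {e : ℕ} (hG : GM F A H g e)

include hA hH hG in
lemma order_pres {B : ℕ} {G' : Type} [AddCommGroup G'] {T' : Set G'} (φ : Tor A g B ≃ T')
    (hφ : ∀ x y z : Tor A g B, x.1 + y.1 = z.1 ↔ (φ x).1 + (φ y).1 = (φ z).1)
    (x : Tor A g B) : addOrderOf (φ x).1 = addOrderOf x.1 := by
  have hmem : ∀ i : ℕ, (i • x.1 : Pts A) ∈ Tor A g B := fun i => tor_nsmul hA hH g hG x.2 i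
  have h1 : ∀ i : ℕ, (φ ⟨(i • x.1 : Pts A), hmem i⟩).1 = i • (φ x).1 := by
    intro i
    induction i with
    | zero =>
      have h2 := (hφ ⟨_, hmem 0⟩ ⟨_, hmem 0⟩ ⟨_, hmem 0⟩).1 (by
        show ((0 : ℕ) • x.1 : Pts A) + (0 : ℕ) • x.1 = (0 : ℕ) • x.1
        rw [zero_smul, add_zero])
      exact (add_eq_right.1 h2).trans (zero_smul ℕ (φ x).1).symm
    | succ i ih =>
      have h2 := (hφ ⟨_, hmem i⟩ x ⟨_, hmem (i + 1)⟩).1 (by
        show (i • x.1 : Pts A) + x.1 = (i + 1) • x.1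
        rw [add_smul, one_smul])
      rw [← h2, ih, add_smul, one_smul]
  refine addOrderOf_eq_addOrderOf_iff.2 fun i => ?_
  have h0 : (φ ⟨((0 : ℕ) • x.1 : Pts A), hmem 0⟩).1 = 0 := (h1 0).trans (zero_smul ℕ (φ x).1)
  constructor
  · intro h
    have h3 : (φ ⟨(i • x.1 : Pts A), hmem i⟩).1 = (φ ⟨((0 : ℕ) • x.1 : Pts A), hmem 0⟩).1 :=
      (h1 i).trans (h.trans h0.symm)
    have h2 : (i • x.1 : Pts A) = (0 : ℕ) • x.1 :=
      congrArg Subtype.val (φ.injective (Subtype.ext h3))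
    exact h2.trans (zero_smul ℕ x.1)
  · intro h
    have h2 : (⟨(i • x.1 : Pts A), hmem i⟩ : Tor A g B) = ⟨((0 : ℕ) • x.1 : Pts A), hmem 0⟩ :=
      Subtype.ext (h.trans (zero_smul ℕ x.1).symm)
    have h3 := h1 i
    rw [h2] at h3
    exact h3.symm.trans h0

end

/-- **Families of abelian varieties along equidistributed arrays of parameters.** -/
theorem av2 {x : ℕ → ℕ → ℕ → ℤ} {S₁ S₂ : ℕ → Finset ℕ}
    (hS₁ : ∀ N, S₁ N ⊆ Finset.Ioc N (2 * N)) (hS₂ : ∀ N, S₂ N ⊆ Finset.Ioc N (2 * N))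
    (h₁ : EquiA S₁ x) (h₂ : EquiA S₂ x) :
    ∃ E : Set ℕ, NullIn S₁ E ∧ NullIn S₂ E ∧
      ∀ (k : Subfield ℂ) [NumberField k] (r : ℕ) (ω : Module.Basis (Fin r) ℤ (𝓞 k)) (N d : ℕ),
        2 ≤ d → ∀ (m : ℕ) (F : Fin (N + 1) → MvPolynomial (Fin (N + 1)) (MvPolynomial (Fin m) k)),
        (∀ i, (F i).IsHomogeneous d) → (MorP fun i => (F i).map
          (algebraMap (MvPolynomial (Fin m) k) (FractionRing (MvPolynomial (Fin m) k)))) →
        ∀ (q s : ℕ) (A : Fin q → MvPolynomial (Fin (N + 1)) (MvPolynomial (Fin m) k))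
          (H : Fin s → MvPolynomial (Fin 3 × Fin (N + 1)) (MvPolynomial (Fin m) k)),
        (∀ j, ∃ e, (A j).IsHomogeneous e) → (∀ j, Multi (H j)) →
        ∀ (g : AddCommGroup (Pts fun j => (A j).map (algebraMap (MvPolynomial (Fin m) k)
          (FractionRing (MvPolynomial (Fin m) k))))) (e : ℕ), 2 ≤ e →
          GM (fun i => (F i).map (algebraMap (MvPolynomial (Fin m) k)
            (FractionRing (MvPolynomial (Fin m) k)))) _
            (fun j => (H j).map (algebraMap (MvPolynomial (Fin m) k)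
              (FractionRing (MvPolynomial (Fin m) k)))) g e →
        ∀ B : ℕ, (Tor _ g B).Finite ∧
          {t : ℕ | t ∉ E ∧ ∃ v : Fin (m + 1) → 𝓞 k,
            v = (fun l : Fin (m + 1) => ∑ j : Fin r, x l j t • ω j) ∧ ¬ (v 0 ≠ 0 ∧
            MorP (fun i => (F i).map (MvPolynomial.eval fun l : Fin m =>
              algebraMap (𝓞 k) k (v l.succ) / algebraMap (𝓞 k) k (v 0))) ∧
            ∀ (g' : AddCommGroup (Pts fun j => (A j).map (MvPolynomial.eval fun l : Fin m =>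
              algebraMap (𝓞 k) k (v l.succ) / algebraMap (𝓞 k) k (v 0)))) (e' : ℕ), 2 ≤ e' →
              GM (fun i => (F i).map (MvPolynomial.eval fun l : Fin m =>
                algebraMap (𝓞 k) k (v l.succ) / algebraMap (𝓞 k) k (v 0))) _
              (fun j => (H j).map (MvPolynomial.eval fun l : Fin m =>
                algebraMap (𝓞 k) k (v l.succ) / algebraMap (𝓞 k) k (v 0))) g' e' →
              ∃ φ : Tor _ g B ≃ Tor _ g' B, (∀ x y z : Tor _ g B,
                x.1 + y.1 = z.1 ↔ (φ x).1 + (φ y).1 = (φ z).1) ∧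
                ∀ x : Tor _ g B, addOrderOf (φ x).1 = addOrderOf x.1)}.Finite := by
  obtain ⟨E, h1, h2, h3⟩ := av hS₁ hS₂ h₁ h₂
  refine ⟨E, h1, h2, ?_⟩
  intro k _ r ω N d hd m F hF hmor q s A H hA hH g e he hG B
  obtain ⟨h4, h5⟩ := h3 k r ω N d hd m F hF hmor q s A H hA hH g e he hG B
  refine ⟨h4, h5.subset ?_⟩
  rintro t ⟨htE, v, hv, ht⟩
  refine ⟨htE, v, hv, fun hgood => ht ⟨hgood.1, hgood.2.1, ?_⟩⟩
  intro g' e' he' hG'
  obtain ⟨φ, hφ⟩ := hgood.2.2 g' e' he' hG'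
  refine ⟨φ, hφ, fun y => ?_⟩
  have hcz : CharZero (FractionRing (MvPolynomial (Fin m) k)) :=
    charZero_of_injective_algebraMap (R := k) (algebraMap k _).injective
  refine order_pres (fun j => ?_) (fun j => ?_) g hG φ hφ y
  · obtain ⟨c, hc⟩ := hA j
    exact ⟨c, hc.map _⟩
  · obtain ⟨c, hc⟩ := hH j
    exact ⟨c, fun s' hs' => hc s' (MvPolynomial.support_map_subset _ _ hs')⟩

end Pool.Agent.N455.AV
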