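import Pool.Agent.N455.TX.PT1
import Pool.Agent.Y706.G16
set_option autoImplicit false
set_option linter.unusedSectionVars false

/-! The generic point of a family over a rational base in the ultrapower (helper455). -/

namespace Pool.Agent.N455.AV
open Pool.Agent.Y706
open Pool.Agent.N455

open MvPolynomial Pool.Agent.H936R2 Pool.Agent.H927R2.RD H294UB
  Pool.Agent.W193.UB Pool.Agent.W554.UB NumberField

section psi

variable {k : Type} [Field k] [NumberField k] {J : Type} [Fintype J] {m : ℕ}
  [TX.Sm (Fin (m + 1) × J)] (ω : Module.Basis J ℤ (𝓞 k)) {U : Ultrafilter (Fin (m + 1) × J → ℤ)}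

/-- evaluation at the parameters -/
noncomputable def th0 (U : Ultrafilter (Fin (m + 1) × J → ℤ)) : MvPolynomial (Fin m) k →+* UP U k :=
  (up U k).comp (RingHom.pi fun w => eval (tp ω w))

lemma th0_apply (r : MvPolynomial (Fin m) k) : th0 ω U r = up U k fun w => eval (tp ω w) r := rfl

lemma th0_inj (hU : TX.Gen U) : Function.Injective (th0 ω U) := by
  rw [injective_iff_map_eq_zero]
  intro r hr
  by_contra hne
  have h1 : ∀ᶠ w in (U : Filter (Fin (m + 1) × J → ℤ)),
      w ∈ {w : Fin (m + 1) × J → ℤ | eval (tp ω w) r = 0}ᶜ := hU _ (TX.D0_tp ω hne)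
  rw [th0_apply] at hr
  have h2 := up_eq_zero.1 hr
  obtain ⟨w, hw1, hw2⟩ := (h1.and h2).exists
  exact hw1 hw2

/-- the generic point in the ultrapower -/
noncomputable def psP (hU : TX.Gen U) : FractionRing (MvPolynomial (Fin m) k) →+* UP U k :=
  IsFractionRing.lift (th0_inj ω hU)

lemma psP_algebraMap (hU : TX.Gen U) (r : MvPolynomial (Fin m) k) :
    psP ω hU (algebraMap _ _ r) = up U k fun w => eval (tp ω w) r :=
  (IsFractionRing.lift_algebraMap (th0_inj ω hU) r).trans (th0_apply ω r)

end psi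

section forms

/-- the polynomial is homogeneous in each of the groups of the variables -/
def Multi {R : Type} [CommRing R] {a n : ℕ} (P : MvPolynomial (Fin a × Fin n) R) : Prop :=
  ∃ e : Fin a → ℕ, ∀ s ∈ P.support, ∀ i, ∑ l, s (i, l) = e i

lemma eval₂_scale {R L : Type} [CommRing R] [Field L] (φ : R →+* L) {a n : ℕ}
    {P : MvPolynomial (Fin a × Fin n) R} {e : Fin a → ℕ}
    (he : ∀ s ∈ P.support, ∀ i, ∑ l, s (i, l) = e i) (z : Fin a → Fin n → L) (c : Fin a → L) :
    eval₂ φ (fun q : Fin a × Fin n => c q.1 * z q.1 q.2) P =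
      (∏ i, c i ^ e i) * eval₂ φ (fun q : Fin a × Fin n => z q.1 q.2) P := by
  classical
  rw [eval₂_eq', eval₂_eq', Finset.mul_sum]
  refine Finset.sum_congr rfl fun s hs => ?_
  have h1 : ∏ q : Fin a × Fin n, (c q.1 * z q.1 q.2) ^ s q =
      (∏ i, c i ^ e i) * ∏ q : Fin a × Fin n, z q.1 q.2 ^ s q := by
    rw [Finset.prod_congr rfl fun q _ => mul_pow (c q.1) (z q.1 q.2) (s q),
      Finset.prod_mul_distrib]
    congr 1
    rw [Fintype.prod_prod_type]
    refine Finset.prod_congr rfl fun i _ => ?_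
    show ∏ l, c i ^ s (i, l) = c i ^ e i
    rw [Finset.prod_pow_eq_pow_sum, he s hs i]
  rw [h1]
  ring

lemma zero_scale {R L : Type} [CommRing R] [Field L] (φ : R →+* L) {a n : ℕ}
    {P : MvPolynomial (Fin a × Fin n) R} (hP : Multi P) (z : Fin a → Fin n → L) (c : Fin a → L)
    (hc : ∀ i, c i ≠ 0) :
    eval₂ φ (fun q : Fin a × Fin n => (c q.1 • z q.1) q.2) P = 0 ↔
      eval₂ φ (fun q : Fin a × Fin n => z q.1 q.2) P = 0 := by
  obtain ⟨e, he⟩ := hP
  have h1 := eval₂_scale φ he z c
  simp only [Pi.smul_apply, smul_eq_mul]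
  rw [h1, mul_eq_zero, or_iff_right]
  exact Finset.prod_ne_zero_iff.2 fun i _ => pow_ne_zero _ (hc i)

lemma map_zero_scale {R K L : Type} [CommRing R] [Field K] [Field L] [Algebra K L] (φ : R →+* K)
    {a n : ℕ} {P : MvPolynomial (Fin a × Fin n) R} (hP : Multi P) (z z' : Fin a → Fin n → L)
    (h : ∀ i, ∃ c : L, c ≠ 0 ∧ z' i = c • z i) :
    aeval (fun q : Fin a × Fin n => z' q.1 q.2) (P.map φ) = 0 ↔
      aeval (fun q : Fin a × Fin n => z q.1 q.2) (P.map φ) = 0 := by
  choose c hc hz using h
  obtain rfl : z' = fun i => c i • z i := funext hz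
  rw [aeval_def, aeval_def, eval₂_map, eval₂_map]
  exact zero_scale ((algebraMap K L).comp φ) hP z c hc

/-- **transfer of the values of polynomials** -/
lemma up_aeval {α : Type} {U : Ultrafilter α} {R K k kb : Type} [CommRing R] [Field K] [Field k]
    [Field kb] [Algebra k kb] [Algebra R K] (ψ : K →+* UP U k) (τ : AlgebraicClosure K →+* UP U kb)
    (hτ : ∀ c, τ (algebraMap K (AlgebraicClosure K) c) = jU U (ψ c)) (ev : α → R →+* k)
    (hψ : ∀ r, ψ (algebraMap R K r) = up U k fun w => ev w r) {σ : Type}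
    {z : σ → AlgebraicClosure K} {x : α → σ → kb} (hx : ∀ j, τ (z j) = up U kb fun w => x w j)
    (P : MvPolynomial σ R) :
    τ (aeval z (P.map (algebraMap R K))) = up U kb fun w => aeval (x w) (P.map (ev w)) := by
  have h : (τ : AlgebraicClosure K →+* UP U kb).comp
      ((aeval (R := K) z : MvPolynomial σ K →ₐ[K] AlgebraicClosure K).toRingHom.comp
        (MvPolynomial.map (algebraMap R K))) =
      (up U kb).comp (RingHom.pi fun w =>
        (aeval (R := k) (x w) : MvPolynomial σ k →ₐ[k] kb).toRingHom.comp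
        (MvPolynomial.map (ev w))) := by
    refine MvPolynomial.ringHom_ext (fun r => ?_) (fun j => ?_)
    · show τ (aeval z ((C r : MvPolynomial σ R).map (algebraMap R K))) =
        up U kb fun w => aeval (x w) ((C r : MvPolynomial σ R).map (ev w))
      rw [map_C, aeval_C, hτ, hψ, jU_up]
      congr 1
      funext w
      rw [map_C, aeval_C]
    · show τ (aeval z ((X j : MvPolynomial σ R).map (algebraMap R K))) =
        up U kb fun w => aeval (x w) ((X j : MvPolynomial σ R).map (ev w))
      rw [map_X, aeval_X, hx]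
      congr 1
      funext w
      rw [map_X, aeval_X]
  exact congrArg (fun f : MvPolynomial σ R →+* UP U kb => f P) h

end forms

end Pool.Agent.N455.AV
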