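import Pool.Agent.N455.AV.Order
import Pool.Agent.N455.AV.Los
set_option autoImplicit false
set_option linter.unusedSectionVars false

/-! The points of the projective space over an ultrapower (helper455). -/

namespace Pool.Agent.N455.AV
open Pool.Agent.Y706
open Pool.Agent.N455

open MvPolynomial LinearAlgebra.Projectivization Filter

section forms

lemma ren_e {R : Type} [CommRing R] {n d : ℕ} {P : MvPolynomial (Fin n) R}
    (hP : P.IsHomogeneous d) : ∀ s ∈ (rename (fun l => ((0 : Fin 1), l)) P).support,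
      ∀ i, ∑ l, s (i, l) = (fun _ : Fin 1 => d) i := by
  classical
  have hinj : Function.Injective fun l : Fin n => ((0 : Fin 1), l) := by
    intro l l' h
    exact (Prod.mk.inj h).2
  intro t ht i
  rw [support_rename_of_injective hinj, Finset.mem_image] at ht
  obtain ⟨u, hu, rfl⟩ := ht
  have h1 : ∀ l, (Finsupp.mapDomain (fun l : Fin n => ((0 : Fin 1), l)) u) (i, l) = u l := by
    intro l
    have h2 : (i, l) = (fun l : Fin n => ((0 : Fin 1), l)) l := by
      rw [Subsingleton.elim i 0]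
    rw [h2, Finsupp.mapDomain_apply hinj]
  rw [Finset.sum_congr rfl fun l _ => h1 l]
  have h3 := hP (mem_support_iff.1 hu)
  have h4 : Finsupp.degree u = d := by
    rw [Finsupp.degree_eq_weight_one]
    exact h3
  rw [← Finsupp.degree_eq_sum, h4]

lemma hom_eval₂ {R L : Type} [CommRing R] [Field L] (φ : R →+* L) {n d : ℕ}
    {P : MvPolynomial (Fin n) R} (hP : P.IsHomogeneous d) (c : L) (x : Fin n → L) :
    eval₂ φ (c • x) P = c ^ d * eval₂ φ x P := by
  have h1 := eval₂_scale φ (ren_e hP) (fun _ => x) (fun _ => c)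
  rw [eval₂_rename, eval₂_rename] at h1
  simp only [Finset.prod_const, Finset.card_univ, Fintype.card_fin, pow_one] at h1
  exact h1

variable {R Ω : Type} [CommRing R] [Field Ω] (φ : R →+* Ω) {n q s : ℕ}

/-- the point lies on the variety -/
def Zp (A : Fin q → MvPolynomial (Fin n) R) (p : ℙ Ω (Fin n → Ω)) : Prop :=
  ∀ j, eval₂ φ p.rep (A j) = 0

/-- the relation of the addition -/
def Rp (H : Fin s → MvPolynomial (Fin 3 × Fin n) R) (x y z : ℙ Ω (Fin n → Ω)) : Prop :=
  ∀ j, eval₂ φ (fun q : Fin 3 × Fin n => (![x, y, z] q.1).rep q.2) (H j) = 0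

/-- the relation of the endomorphism -/
def Mp (F : Fin n → MvPolynomial (Fin n) R) (x y : ℙ Ω (Fin n → Ω)) : Prop :=
  ∃ c : Ω, c ≠ 0 ∧ (fun i => eval₂ φ x.rep (F i)) = c • y.rep

end forms

section

variable {α : Type} {U : Ultrafilter α} {kb : Type} [Field kb] {R : Type} [CommRing R]
  (ev : α → R →+* kb) {n : ℕ}

/-- the evaluation in the ultrapower -/
noncomputable def evU (U : Ultrafilter α) : R →+* UP U kb := (up U kb).comp (RingHom.pi ev)

lemma evU_eval {σ : Type} (x : σ → α → kb) (P : MvPolynomial σ R) :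
    eval₂ (evU ev U) (fun j => up U kb (x j)) P =
      up U kb fun w => eval₂ (ev w) (fun j => x j w) P := by
  have h : eval₂Hom (evU ev U) (fun j => up U kb (x j)) =
      (up U kb).comp (RingHom.pi fun w => eval₂Hom (ev w) (fun j => x j w)) := by
    refine MvPolynomial.ringHom_ext (fun r => ?_) (fun j => ?_)
    · rw [eval₂Hom_C]
      show up U kb (fun w => ev w r) = up U kb fun w => eval₂Hom (ev w) (fun j => x j w) (C r)
      congr 1
      funext w
      rw [eval₂Hom_C]
    · rw [eval₂Hom_X']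
      show up U kb (x j) = up U kb fun w => eval₂Hom (ev w) (fun j => x j w) (X j)
      congr 1
      funext w
      rw [eval₂Hom_X']
  exact congrArg (fun f : MvPolynomial σ R →+* UP U kb => f P) h

lemma vec_ne (p : α → ℙ kb (Fin n → kb)) :
    (fun j => up U kb fun w => (p w).rep j) ≠ 0 := by
  intro h
  have h1 : ∀ᶠ w in (U : Filter α), ∀ j, (p w).rep j = 0 := by
    rw [Filter.eventually_all]
    intro j
    exact up_eq_zero.1 (congrFun h j)
  obtain ⟨w, hw⟩ := h1.exists
  exact (p w).rep_nonzero (funext hw)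

/-- the point of the ultrapower -/
noncomputable def Ph (U : Ultrafilter α) (p : α → ℙ kb (Fin n → kb)) :
    ℙ (UP U kb) (Fin n → UP U kb) :=
  Projectivization.mk (UP U kb) (fun j => up U kb fun w => (p w).rep j) (vec_ne p)

lemma Ph_rep (p : α → ℙ kb (Fin n → kb)) : ∃ c : UP U kb, c ≠ 0 ∧
    (Ph U p).rep = c • fun j => up U kb fun w => (p w).rep j :=
  mk_rep_smul _

lemma Ph_eq (p q : α → ℙ kb (Fin n → kb)) :
    Ph U p = Ph U q ↔ ∀ᶠ w in (U : Filter α), p w = q w := by
  unfold Ph
  rw [Projectivization.mk_eq_mk_iff']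
  constructor
  · rintro ⟨c, hc⟩
    obtain ⟨cw, rfl⟩ := up_surj c
    have h1 : ∀ᶠ w in (U : Filter α), ∀ j, cw w * (q w).rep j = (p w).rep j := by
      rw [Filter.eventually_all]
      intro j
      have h2 := congrFun hc j
      simp only [Pi.smul_apply, smul_eq_mul] at h2
      rw [← map_mul] at h2
      exact up_eq.1 h2
    filter_upwards [h1] with w hw
    rw [← (p w).mk_rep, ← (q w).mk_rep, Projectivization.mk_eq_mk_iff']
    exact ⟨cw w, funext hw⟩
  · intro h
    refine ⟨1, ?_⟩
    rw [one_smul]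
    funext j
    refine up_eq.2 ?_
    filter_upwards [h] with w hw
    rw [hw]

lemma Ph_surj : Function.Surjective (Ph U : (α → ℙ kb (Fin n → kb)) → _) := by
  classical
  intro y
  choose f hf using fun j => up_surj (U := U) (k := kb) (y.rep j)
  have h1 : ∀ᶠ w in (U : Filter α), (fun j => f j w) ≠ 0 := by
    refine Ultrafilter.eventually_not.2 fun h => ?_
    apply y.rep_nonzero
    funext j
    rw [← hf j]
    refine up_eq_zero.2 ?_
    filter_upwards [h] with w hw
    exact congrFun hw j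
  obtain ⟨w0, hw0⟩ := h1.exists
  refine ⟨fun w => if h : (fun j => f j w) ≠ 0 then Projectivization.mk kb _ h else
    Projectivization.mk kb _ hw0, ?_⟩
  have h2 : ∀ w, ∃ c : kb, (fun j => f j w) ≠ 0 →
      (if h : (fun j => f j w) ≠ 0 then Projectivization.mk kb _ h else
        Projectivization.mk kb _ hw0).rep = c • fun j => f j w := by
    intro w
    by_cases h : (fun j => f j w) ≠ 0
    · obtain ⟨c, hc, h3⟩ := mk_rep_smul h
      refine ⟨c, fun _ => ?_⟩
      rw [dif_pos h]
      exact h3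
    · exact ⟨0, fun h' => absurd h' h⟩
  choose c hc using h2
  unfold Ph
  rw [← y.mk_rep, Projectivization.mk_eq_mk_iff']
  refine ⟨up U kb c, ?_⟩
  funext j
  rw [Pi.smul_apply, smul_eq_mul, ← hf j, ← map_mul]
  refine up_eq.2 ?_
  filter_upwards [h1] with w hw
  rw [hc w hw]
  rfl

variable {q s d : ℕ} {A : Fin q → MvPolynomial (Fin n) R} (hA : ∀ j, ∃ e, (A j).IsHomogeneous e)
  {H : Fin s → MvPolynomial (Fin 3 × Fin n) R} (hH : ∀ j, Multi (H j))
  {F : Fin n → MvPolynomial (Fin n) R} (hF : ∀ j, (F j).IsHomogeneous d)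

include hA in
lemma Ph_Z (p : α → ℙ kb (Fin n → kb)) :
    Zp (evU ev U) A (Ph U p) ↔ ∀ᶠ w in (U : Filter α), Zp (ev w) A (p w) := by
  unfold Zp
  rw [Filter.eventually_all]
  refine forall_congr' fun j => ?_
  obtain ⟨c, hc, h1⟩ := Ph_rep (U := U) p
  obtain ⟨e, he⟩ := hA j
  rw [h1, hom_eval₂ _ he, mul_eq_zero, or_iff_right (pow_ne_zero _ hc),
    evU_eval ev (fun j w => (p w).rep j) (A j)]
  exact up_eq_zero

include hH in
lemma Ph_R (p p' p'' : α → ℙ kb (Fin n → kb)) :
    Rp (evU ev U) H (Ph U p) (Ph U p') (Ph U p'') ↔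
      ∀ᶠ w in (U : Filter α), Rp (ev w) H (p w) (p' w) (p'' w) := by
  unfold Rp
  rw [Filter.eventually_all]
  refine forall_congr' fun j => ?_
  have h1 : ∀ i : Fin 3, ∃ c : UP U kb, c ≠ 0 ∧ (![Ph U p, Ph U p', Ph U p''] i).rep =
      c • fun l => up U kb fun w => (![p w, p' w, p'' w] i).rep l := by
    intro i
    fin_cases i
    · exact Ph_rep p
    · exact Ph_rep p'
    · exact Ph_rep p''
  choose c hc h2 using h1
  have h3 : (fun r : Fin 3 × Fin n => (![Ph U p, Ph U p', Ph U p''] r.1).rep r.2) =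
      fun r : Fin 3 × Fin n => (c r.1 • fun l => up U kb fun w =>
        (![p w, p' w, p'' w] r.1).rep l) r.2 := by
    funext r
    rw [h2]
  rw [h3, zero_scale (evU ev U) (hH j)
    (fun i l => up U kb fun w => (![p w, p' w, p'' w] i).rep l) c hc,
    evU_eval ev (fun (r : Fin 3 × Fin n) w => (![p w, p' w, p'' w] r.1).rep r.2) (H j)]
  exact up_eq_zero

include hF in
lemma Ph_M (p p' : α → ℙ kb (Fin n → kb)) :
    Mp (evU ev U) F (Ph U p) (Ph U p') ↔ ∀ᶠ w in (U : Filter α), Mp (ev w) F (p w) (p' w) := by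
  classical
  obtain ⟨c, hc, h1⟩ := Ph_rep (U := U) p
  obtain ⟨c', hc', h1'⟩ := Ph_rep (U := U) p'
  unfold Mp
  have h2 : ∀ i, eval₂ (evU ev U) (Ph U p).rep (F i) =
      c ^ d * up U kb fun w => eval₂ (ev w) (p w).rep (F i) := by
    intro i
    rw [h1, hom_eval₂ _ (hF i), evU_eval ev (fun j w => (p w).rep j) (F i)]
  constructor
  · rintro ⟨a, ha, h3⟩
    obtain ⟨b, hb⟩ := up_surj (U := U) (k := kb) ((c ^ d)⁻¹ * a * c')
    have hb0 : ∀ᶠ w in (U : Filter α), b w ≠ 0 := by
      refine Ultrafilter.eventually_not.2 fun h => ?_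
      have h4 : up U kb b = 0 := up_eq_zero.2 h
      rw [hb] at h4
      exact mul_ne_zero (mul_ne_zero (inv_ne_zero (pow_ne_zero _ hc)) ha) hc' h4
    have h4 : ∀ᶠ w in (U : Filter α), ∀ i,
        eval₂ (ev w) (p w).rep (F i) = b w * (p' w).rep i := by
      rw [Filter.eventually_all]
      intro i
      refine up_eq.1 ?_
      have h5 := congrFun h3 i
      simp only [Pi.smul_apply, smul_eq_mul] at h5
      rw [h2, h1', Pi.smul_apply, smul_eq_mul] at h5
      have h6 : (up U kb fun w => b w * (p' w).rep i) = up U kb b * up U kb fun w => (p' w).rep i :=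
        map_mul (up U kb) b fun w => (p' w).rep i
      rw [h6, hb]
      have h7 : c ^ d ≠ 0 := pow_ne_zero _ hc
      field_simp
      linear_combination h5
    filter_upwards [hb0, h4] with w a1 a2
    exact ⟨b w, a1, funext a2⟩
  · intro h
    have h' : ∀ w, ∃ b : kb, (∃ c : kb, c ≠ 0 ∧ (fun i => eval₂ (ev w) (p w).rep (F i)) =
        c • (p' w).rep) → b ≠ 0 ∧ (fun i => eval₂ (ev w) (p w).rep (F i)) = b • (p' w).rep := by
      intro w
      by_cases hw : ∃ c : kb, c ≠ 0 ∧ (fun i => eval₂ (ev w) (p w).rep (F i)) = c • (p' w).rep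
      · obtain ⟨b, hb⟩ := hw
        exact ⟨b, fun _ => hb⟩
      · exact ⟨0, fun h => absurd h hw⟩
    choose b hb using h'
    have hb0 : up U kb b ≠ 0 := by
      intro h0
      obtain ⟨w, hw1, hw2⟩ := (h.and (up_eq_zero.1 h0)).exists
      exact (hb w hw1).1 hw2
    refine ⟨c ^ d * up U kb b * c'⁻¹, mul_ne_zero (mul_ne_zero (pow_ne_zero _ hc) hb0)
      (inv_ne_zero hc'), ?_⟩
    funext i
    rw [h2, h1', Pi.smul_apply, Pi.smul_apply, smul_eq_mul, smul_eq_mul]
    have h6 : (up U kb fun w => eval₂ (ev w) (p w).rep (F i)) =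
        up U kb b * up U kb fun w => (p' w).rep i := by
      rw [← map_mul]
      refine up_eq.2 ?_
      filter_upwards [h] with w hw
      exact congrFun (hb w hw).2 i
    rw [h6]
    field_simp

include hA hH hF in
/-- **the group law specialises** -/
theorem grp_los {e : ℕ} (g : AddCommGroup {p : ℙ (UP U kb) (Fin n → UP U kb) //
    Zp (evU ev U) A p}) (hg : IsGrp (Zp (evU ev U) A) (Rp (evU ev U) H) (Mp (evU ev U) F) e g) :
    ∀ᶠ w in (U : Filter α), ∃ g' : AddCommGroup {p : ℙ kb (Fin n → kb) // Zp (ev w) A p},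
      IsGrp (Zp (ev w) A) (Rp (ev w) H) (Mp (ev w) F) e g' := by
  have h := ax_los (Φ := Ph U) (Z := fun w => Zp (ev w) A) (R := fun w => Rp (ev w) H)
    (M := fun w => Mp (ev w) F) Ph_surj Ph_eq (Ph_Z ev hA) (Ph_R ev hH)
    (fun p q _ _ => Ph_M ev hF p q) (ax_of_grp hg)
  exact h.mono fun w hw => grp_of_ax hw

end

end Pool.Agent.N455.AV
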